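import Pool.Agent.NUS4.H1e
import Pool.Agent.NUO.Glue

/-!
# The cutoff factor as an analytic potential in the bulk

`lph ep M z = log (ph M β (l + i z))`, `β = (4/3) (1 - ep)`: for `m ≤ M`, `m` large,
`|re z| ≤ (1 - e) (3/8) log m + 5` and `|im z| ≤ ep / 2` it is analytic and tiny.
-/

set_option autoImplicit false

open MeasureTheory Set Filter Topology

namespace NUS4

open NUP1

noncomputable section

/-- the position on the line of the gas -/
def uz (z : ℂ) : ℂ := (NUP1.l : ℂ) + Complex.I * z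

/-- logarithm of the cutoff factor -/
def lph (ep : ℝ) (M : ℕ) (z : ℂ) : ℂ := Complex.log (NUO.ph M (4 / 3 * (1 - ep)) (uz z))

lemma uz_re (z : ℂ) : (uz z).re = NUP1.l - z.im := by
  unfold uz
  simp
  ring

lemma uz_im (z : ℂ) : (uz z).im = z.re := by
  unfold uz
  simp

lemma uz_curve (η : ℝ → ℝ) (t : ℝ) : uz ((t : ℂ) + (η t : ℂ) * Complex.I) = NUO.pA η t := by
  unfold uz NUO.pA NUP1.vl
  push_cast
  linear_combination (η t : ℂ) * Complex.I_sq

/-- the power of `psi` is tiny in the bulk -/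
theorem psi_pow_le {ep e : ℝ} (hep : 0 < ep) (hep1 : ep < 1) (he : 0 < e) (he1 : e ≤ 1) :
    ∃ m0 : ℕ, 1 ≤ m0 ∧ ∀ m : ℕ, m0 ≤ m → ∀ M : ℕ, m ≤ M → ∀ z : ℂ, |z.re| ≤ R1f e m + 5 →
      |z.im| ≤ ep / 2 → ‖psi (4 / 3 * (1 - ep)) (uz z) ^ M‖ ≤ Real.exp (-(m : ℝ) ^ (e / 2)) := by
  have hA := adm (ε := ep) (r := ep / 2) hep hep1 (by positivity) le_rfl
  set β := 4 / 3 * (1 - ep) with hβ
  set sa := 3 * NUP1.l / 2 + ep / 2 with hsa
  have hk := hA.kap_pos
  have hc := hA.cl_pos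
  set c0 := cl β * kap β sa / 2 with hc0
  have hc00 : 0 < c0 := by positivity
  -- `c0 e^{-11} m^e ≥ m^{e/2}` for large `m`
  have h1 : Tendsto (fun m : ℕ => (m : ℝ) ^ (e / 2)) atTop atTop :=
    (tendsto_rpow_atTop (by positivity)).comp tendsto_natCast_atTop_atTop
  obtain ⟨m1, hm1⟩ := eventually_atTop.1 (h1.eventually_ge_atTop (Real.exp 11 / c0))
  refine ⟨max 1 m1, le_max_left _ _, fun m hm M hM z hz hz' => ?_⟩
  have hm0 : 1 ≤ m := (le_max_left _ _).trans hm
  have hmr : (1 : ℝ) ≤ m := by exact_mod_cast hm0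
  have hmp : (0 : ℝ) < m := by linarith
  have hL := Real.log_nonneg hmr
  have hM' : (m : ℝ) ≤ M := by exact_mod_cast hM
  have hin : |(uz z).re + NUP1.l / 2| ≤ sa := by
    rw [uz_re, hsa, abs_le]
    obtain ⟨a1, a2⟩ := abs_le.1 hz'
    have := NUP1.l_pos
    constructor <;> linarith
  have h2 := norm_psi hA hin
  rw [uz_im] at h2
  have h3 : Real.exp (-11) * (m : ℝ) ^ (-(1 - e)) ≤ Real.exp (-(2 * β) * |z.re|) := by
    rw [Real.rpow_def_of_pos hmp, ← Real.exp_add]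
    refine Real.exp_le_exp.2 ?_
    have h4 : 2 * β * |z.re| ≤ 8 / 3 * |z.re| := by
      refine mul_le_mul_of_nonneg_right ?_ (abs_nonneg _)
      rw [hβ]
      linarith
    have h5 : 8 / 3 * |z.re| ≤ 8 / 3 * (R1f e m + 5) := by linarith
    unfold R1f at h5
    nlinarith
  rw [norm_pow]
  calc ‖psi β (uz z)‖ ^ M ≤ (Real.exp (-(c0 * Real.exp (-(2 * β) * |z.re|)))) ^ M :=
        pow_le_pow_left₀ (norm_nonneg _) h2 _
    _ = Real.exp (-(M * (c0 * Real.exp (-(2 * β) * |z.re|)))) := by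
        rw [← Real.exp_nat_mul]
        ring_nf
    _ ≤ Real.exp (-(m : ℝ) ^ (e / 2)) := by
        refine Real.exp_le_exp.2 (neg_le_neg ?_)
        have h6 : (m : ℝ) * (c0 * (Real.exp (-11) * (m : ℝ) ^ (-(1 - e)))) ≤
            M * (c0 * Real.exp (-(2 * β) * |z.re|)) := by
          have : 0 ≤ c0 * (Real.exp (-11) * (m : ℝ) ^ (-(1 - e))) := by positivity
          have h7 : c0 * (Real.exp (-11) * (m : ℝ) ^ (-(1 - e))) ≤
              c0 * Real.exp (-(2 * β) * |z.re|) := mul_le_mul_of_nonneg_left h3 hc00.le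
          exact mul_le_mul hM' h7 this (by positivity)
        refine le_trans ?_ h6
        have h8 : (m : ℝ) * (c0 * (Real.exp (-11) * (m : ℝ) ^ (-(1 - e)))) =
            (c0 / Real.exp 11 * (m : ℝ) ^ (e / 2)) * (m : ℝ) ^ (e / 2) := by
          have h9 : (m : ℝ) * (m : ℝ) ^ (-(1 - e)) = (m : ℝ) ^ (e / 2) * (m : ℝ) ^ (e / 2) := by
            rw [← Real.rpow_add hmp, ← Real.rpow_one_add' hmp.le (by linarith)]
            congr 1
            ring
          rw [Real.exp_neg, div_eq_mul_inv]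
          linear_combination (c0 * (Real.exp 11)⁻¹) * h9
        rw [h8]
        have h10 := hm1 m ((le_max_right _ _).trans hm)
        have h11 : 1 ≤ c0 / Real.exp 11 * (m : ℝ) ^ (e / 2) := by
          calc (1 : ℝ) = c0 / Real.exp 11 * (Real.exp 11 / c0) := by field_simp
            _ ≤ _ := mul_le_mul_of_nonneg_left h10 (by positivity)
        exact le_mul_of_one_le_left (by positivity) h11

/-- **the cutoff factor in the bulk** -/
theorem exists_lph {ep e : ℝ} (hep : 0 < ep) (hep1 : ep < 1) (he : 0 < e) (he1 : e ≤ 1) :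
    ∃ m0 : ℕ, 1 ≤ m0 ∧ ∀ m : ℕ, m0 ≤ m → ∀ M : ℕ, m ≤ M → ∀ z : ℂ, |z.re| ≤ R1f e m + 5 →
      |z.im| ≤ ep / 2 → DifferentiableAt ℂ (lph ep M) z ∧
        ‖lph ep M z‖ ≤ 2 * Real.exp (-(m : ℝ) ^ (e / 2)) ∧ ‖lph ep M z‖ ≤ 1 ∧
        ‖NUO.ph M (4 / 3 * (1 - ep)) (uz z)‖ = Real.exp (lph ep M z).re := by
  obtain ⟨m0, h0, H⟩ := psi_pow_le hep hep1 he he1
  have h1 : Tendsto (fun m : ℕ => (m : ℝ) ^ (e / 2)) atTop atTop :=
    (tendsto_rpow_atTop (by positivity)).comp tendsto_natCast_atTop_atTop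
  obtain ⟨m1, hm1⟩ := eventually_atTop.1 (h1.eventually_ge_atTop (Real.log 4))
  refine ⟨max m0 m1, h0.trans (le_max_left _ _), fun m hm M hM z hz hz' => ?_⟩
  have h2 := H m ((le_max_left _ _).trans hm) M hM z hz hz'
  have h3 := hm1 m ((le_max_right _ _).trans hm)
  have h4 : Real.exp (-(m : ℝ) ^ (e / 2)) ≤ 1 / 4 := by
    rw [Real.exp_neg, one_div]
    refine inv_anti₀ (by norm_num) ?_
    calc (4 : ℝ) = Real.exp (Real.log 4) := (Real.exp_log (by norm_num)).symm
      _ ≤ _ := Real.exp_le_exp.2 h3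
  set x := psi (4 / 3 * (1 - ep)) (uz z) ^ M with hx
  have hph : NUO.ph M (4 / 3 * (1 - ep)) (uz z) = 1 + -x := by
    unfold NUO.ph
    rw [← hx, sub_eq_add_neg]
  have hx1 : ‖-x‖ ≤ 1 / 4 := by
    rw [norm_neg]
    exact h2.trans h4
  have hsl : 1 + -x ∈ Complex.slitPlane :=
    Complex.mem_slitPlane_of_norm_lt_one (by linarith)
  have hn : ‖lph ep M z‖ ≤ 2 * Real.exp (-(m : ℝ) ^ (e / 2)) := by
    unfold lph
    rw [hph]
    have h5 := Complex.norm_log_one_add_half_le_self (z := -x) (by linarith)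
    rw [norm_neg] at h5
    have := Real.exp_pos (-(m : ℝ) ^ (e / 2))
    linarith
  refine ⟨?_, hn, by linarith, ?_⟩
  · have hA := adm (ε := ep) (r := ep / 2) hep hep1 (by positivity) le_rfl
    have hin : |(uz z).re + NUP1.l / 2| ≤ 3 * NUP1.l / 2 + ep / 2 := by
      rw [uz_re, abs_le]
      obtain ⟨a1, a2⟩ := abs_le.1 hz'
      have := NUP1.l_pos
      constructor <;> linarith
    have hd := differentiableAt_psi hA hin
    have hu : DifferentiableAt ℂ uz z := by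
      unfold uz
      fun_prop
    have h6 : DifferentiableAt ℂ (fun z => NUO.ph M (4 / 3 * (1 - ep)) (uz z)) z := by
      unfold NUO.ph
      exact ((hd.comp z hu).pow M).const_sub 1
    unfold lph
    refine h6.clog ?_
    rw [hph]
    exact hsl
  · have hne : (1 + -x) ≠ 0 := Complex.slitPlane_ne_zero hsl
    unfold lph
    rw [hph, ← Complex.norm_exp, Complex.exp_log hne]

end

end NUS4
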