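import Pool.Agent.NUS4.Sharp
import Pool.Agent.NUO.PotF
import Pool.Agent.NUO.Par0
import Pool.Agent.NUBR.Z1
import Pool.Agent.NUS4.PhLog

/-!
# The data `GD` of the sharp bound for TARGET-A

`cur_A`: the curve `etaA e1 J m` is admissible; `pg_par0`; `gd_A`: the one body factors `aA` of a
configuration of at most `log m` objects at heights at most `(log m)^2` satisfy `NUS4.GD`.
-/

set_option autoImplicit false

open MeasureTheory Set Filter Topology

namespace NUS4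

open NUE NUOC NUKer NUR2 NUDi NUO NUBR

noncomputable section

/-- **the parameters of TARGET-A** are admissible for the potentials, `δ = 1/8` -/
theorem pg_par0 (m : ℕ) : PG (1 / 8) (par0 m) where
  δ0 := by norm_num
  j1 := by rw [par0_jL]; norm_num
  j2 := by rw [par0_jL]; norm_num
  e1 := by rw [par0_e]; norm_num
  d0 := fun r => (d0_pos r).le
  e2 := fun r => by have := d0_le r; rw [par0_e, par0_d]; linarith
  r0 := fun r t => (rad0_pos m r t).le
  r1 := fun r t => by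
    have h1 := rad0_le_l m r t
    have h2 : NUP1.l = NUMF.l := rfl
    have h3 := l_pos'
    rw [par0_rad, ← h2]
    rw [← h2] at h3
    linarith

/-- **the curve of TARGET-A** is admissible -/
theorem cur_A {e1 J : ℝ} (he : 0 < e1) (he1 : e1 ≤ 1) (hJ : 0 ≤ J) : ∃ m0 : ℕ, ∀ m ≥ m0,
    ∃ (ε M : ℝ) (ec : ℝ → ℝ), NUAct.Cur m ε M ((1 - e1) * Tb (Real.log m)) ec (etaA e1 J m) ∧
      ε ≤ (m : ℝ) ^ (-(e1 / 2)) ∧ M ≤ Real.log m := by
  obtain ⟨C, hC, hcur⟩ := NUAct.exists_cur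
  obtain ⟨C', hC', hb⟩ := NUCUR.cur_bound4 he
  have h3 : 0 < √3 := Real.sqrt_pos.2 (by norm_num)
  have hpi := Real.pi_pos
  obtain ⟨K, hK⟩ : ∃ K : ℝ, K = C * (C' * J) / (4 / (√3 * Real.pi)) := ⟨_, rfl⟩
  have hK0 : 0 ≤ K := by rw [hK]; positivity
  have h1 : Filter.Tendsto (fun m : ℕ => K * (m : ℝ) ^ (-(e1 / 2))) Filter.atTop (nhds (K * 0)) :=
    ((tendsto_rpow_neg_atTop (by linarith)).comp tendsto_natCast_atTop_atTop).const_mul _
  rw [mul_zero] at h1
  have h2 := h1.eventually_le_const one_pos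
  have h4 := (Real.tendsto_log_atTop.comp tendsto_natCast_atTop_atTop).eventually_ge_atTop
    (max (8 / 3) (C * (C' * J)))
  obtain ⟨m0, hm0⟩ := Filter.eventually_atTop.1 (h2.and (h4.and (Filter.eventually_ge_atTop 1)))
  refine ⟨m0, fun m hm => ?_⟩
  obtain ⟨a1, a2, a3⟩ := hm0 m hm
  have a4 : 8 / 3 ≤ Real.log m := (le_max_left _ _).trans a2
  have a5 : C * (C' * J) ≤ Real.log m := (le_max_right _ _).trans a2
  have hm1 : (0 : ℝ) < m := by exact_mod_cast a3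
  have hT : 1 ≤ Tb (Real.log m) := by unfold Tb; linarith
  have hb0 : 0 ≤ (1 - e1) * Tb (Real.log m) := mul_nonneg (by linarith) (by linarith)
  obtain ⟨ec, hec⟩ := hcur m (C' * J) ((1 - e1) * Tb (Real.log m)) hm1 hb0
    (NUCUR.cur e1 (Tb (Real.log m)) J) (NUCUR.cur_contDiff (n := (4 : ℕ∞)))
    (fun k hk t => hb _ J hT hJ k hk t) (fun t ht => NUCUR.cur_zero he (by linarith) ht)
  refine ⟨_, _, ec, hec, ?_, a5⟩
  -- `m P(b) ≥ c m^{e1}`
  have hP := NUMF.le_P ((1 - e1) * Tb (Real.log m))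
  rw [abs_of_nonneg hb0] at hP
  have e1' : Real.exp (-(8 / 3) * ((1 - e1) * Tb (Real.log m))) = (m : ℝ) ^ (-(1 - e1)) := by
    rw [Real.rpow_def_of_pos hm1]
    congr 1
    unfold Tb
    ring
  rw [e1'] at hP
  have e2 : (m : ℝ) * (m : ℝ) ^ (-(1 - e1)) = (m : ℝ) ^ e1 := by
    nth_rewrite 1 [← Real.rpow_one (m : ℝ)]
    rw [← Real.rpow_add hm1]
    congr 1
    ring
  have e3 : 4 / (√3 * Real.pi) * (m : ℝ) ^ e1 ≤ m * NUMF.P ((1 - e1) * Tb (Real.log m)) := by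
    rw [← e2]
    calc 4 / (√3 * Real.pi) * ((m : ℝ) * (m : ℝ) ^ (-(1 - e1))) =
          m * (4 / (√3 * Real.pi) * (m : ℝ) ^ (-(1 - e1))) := by ring
      _ ≤ _ := mul_le_mul_of_nonneg_left hP hm1.le
  have e4 : (m : ℝ) ^ (-(e1 / 2)) * (m : ℝ) ^ e1 = (m : ℝ) ^ (e1 / 2) := by
    rw [← Real.rpow_add hm1]
    congr 1
    ring
  have e5 : (m : ℝ) ^ (-(e1 / 2)) * (m : ℝ) ^ (e1 / 2) = 1 := by
    rw [← Real.rpow_add hm1, show -(e1 / 2) + e1 / 2 = 0 by ring, Real.rpow_zero]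
  have hp : 0 < (m : ℝ) ^ e1 := Real.rpow_pos_of_pos hm1 _
  have hp2 : 0 < (m : ℝ) ^ (e1 / 2) := Real.rpow_pos_of_pos hm1 _
  have hKm : K ≤ (m : ℝ) ^ (e1 / 2) := by
    have : K * (m : ℝ) ^ (-(e1 / 2)) * (m : ℝ) ^ (e1 / 2) ≤ 1 * (m : ℝ) ^ (e1 / 2) :=
      mul_le_mul_of_nonneg_right a1 hp2.le
    rw [mul_assoc, e5] at this
    linarith
  rw [div_le_iff₀ (by have := NUMF.P_pos ((1 - e1) * Tb (Real.log m)); positivity)]
  calc C * (C' * J) = K * (4 / (√3 * Real.pi)) := by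
        rw [hK]
        field_simp
    _ ≤ (m : ℝ) ^ (e1 / 2) * (4 / (√3 * Real.pi)) := mul_le_mul_of_nonneg_right hKm (by positivity)
    _ = (m : ℝ) ^ (-(e1 / 2)) * (4 / (√3 * Real.pi) * (m : ℝ) ^ e1) := by rw [← e4]; ring
    _ ≤ _ := mul_le_mul_of_nonneg_left e3 (Real.rpow_nonneg hm1.le _)

/-- the two forms of the row potential -/
lemma re_vc {z : ℂ} (hz : |z.im| < NUMF.l) : (NUMF.vc z).re = (NUAct.vc z).re := by
  have h0 := NUAct.a0 hz
  have h3 := NUAct.a3 hz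
  have key : ∀ {y : ℝ}, |z.im| + |y| < Real.pi / 2 → (NUAct.Ly y z).re =
      Real.log ‖Complex.cosh (2 * z) + (Real.cos (2 * y) : ℝ)‖ := by
    intro y h
    have h1 : Complex.cosh (z + y * Complex.I) ≠ 0 := NUMF.cosh_ne (NUAct.im_add_lt h)
    have h2 : Complex.cosh (z - y * Complex.I) ≠ 0 := NUMF.cosh_ne (NUAct.im_sub_lt h)
    have e1 : 2 * (Complex.cosh (z + y * Complex.I) * Complex.cosh (z - y * Complex.I)) =
        Complex.cosh (2 * z) + (Real.cos (2 * y) : ℝ) := by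
      have a1 := Complex.cosh_add (z + y * Complex.I) (z - y * Complex.I)
      have a2 := Complex.cosh_sub (z + y * Complex.I) (z - y * Complex.I)
      rw [show z + y * Complex.I + (z - y * Complex.I) = 2 * z by ring] at a1
      rw [show z + y * Complex.I - (z - y * Complex.I) = (2 * y : ℝ) * Complex.I by push_cast; ring,
        Complex.cosh_mul_I] at a2
      push_cast at a2 ⊢
      rw [a1, a2]
      ring
    unfold NUAct.Ly
    rw [← e1, norm_mul, norm_mul, Complex.add_re, Complex.add_re, Complex.log_re, Complex.log_re,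
      Complex.ofReal_re, Real.log_mul (by simp) (by positivity),
      Real.log_mul (by positivity) (by positivity)]
    have : ‖(2 : ℂ)‖ = 2 := by simp
    rw [this]
    ring
  unfold NUMF.vc NUAct.vc
  rw [Complex.sub_re, Complex.sub_re, key h0, key h3, Complex.log_re, Complex.log_re]
  have e : Real.cos (2 * (3 * NUMF.l)) = -NUMF.r := by
    rw [NUMF.r_eq]
    rw [show 2 * (3 * NUMF.l) = Real.pi - Real.pi / 4 by unfold NUMF.l; ring, Real.cos_pi_sub]
  rw [e, mul_zero, Real.cos_zero]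
  push_cast
  rfl

/-- **the data of the sharp bound for a configuration**: curve `η`, rows `s`, cutoff of `M ≥ m` rows,
extra analytic potentials `A`, constant `c0`; at most `log m` objects at heights at most `(log m)²` -/
theorem gd_conf {ep e1 κ : ℝ} (hep : 0 < ep) (hep1 : ep ≤ 1 / 100) (he : 0 < e1) (he1 : e1 ≤ 1 / 4)
    (hκ : 0 < κ) (k : ℕ) : ∃ m0 : ℕ, ∀ m ≥ m0, ∀ (s R c0 : ℝ) (M : ℕ) (P : Par) (η η1 : ℝ → ℝ)
    (A : Bool → ℂ → ℂ) (r : ℕ) (O : Fin r → Xo) (aX aY : ℝ → ℝ),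
    (m : ℝ) / 2 ≤ s → s ≤ 2 * m → m ≤ M → PG (1 / 8) P → Real.log m ≤ R → R ≤ 2 * Real.log m ^ 2 →
    (1 - e1) * Tb (Real.log m) + 3 ≤ R →
    (∃ (ε Mc : ℝ) (ec : ℝ → ℝ), NUAct.Cur s ε Mc ((1 - e1) * Tb (Real.log m)) ec η ∧
      ε ≤ (m : ℝ) ^ (-κ) ∧ Mc ≤ Real.log m ^ k) →
    (∀ t, HasDerivAt η (η1 t) t) →
    (∀ a (z : ℂ), |z.re| ≤ (1 - e1) * Tb (Real.log m) + 2 → |z.im| < ep / 2 →
      DifferentiableAt ℂ (A a) z ∧ ‖A a z‖ ≤ Real.log m ^ k) →
    |c0| ≤ Real.log m ^ k → (r : ℝ) ≤ Real.log m → (∀ i, |ht (O i)| ≤ Real.log m ^ 2) →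
    (∀ t, 0 ≤ aX t) → (∀ t, 0 ≤ aY t) → Measurable aX → Measurable aY →
    (∀ t, |t| ≤ (1 - e1) * Tb (Real.log m) → aX t = Real.exp (s * (NUMF.vc ((t : ℂ) + dA η t)).re +
      (A true ((t : ℂ) + dA η t)).re + c0) * ‖ph M (4 / 3 * (1 - ep)) (pA η t)‖ *
        ∏ i, potN P O i true (pA η t)) →
    (∀ t, |t| ≤ (1 - e1) * Tb (Real.log m) → aY t = Real.exp (s * (NUMF.vc ((t : ℂ) + dA η t)).re +
      (A false ((t : ℂ) + dA η t)).re + c0) * ‖ph M (4 / 3 * (1 - ep)) (pA η t)‖ *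
        ∏ i, potN P O i false (pA η t)) →
    GD m (k + 5) κ e1 (ep / 2) s R ((1 - e1) * Tb (Real.log m)) η η1 η η1 aX aY := by
  obtain ⟨m1, hm1, HL⟩ := exists_lph (ep := ep) (e := e1) hep (by linarith) he (by linarith)
  have hl := NUMF.l_pos
  have hlv : (98 : ℝ) / 250 < NUMF.l := by
    unfold NUMF.l
    have := Real.pi_gt_d2
    linarith
  -- the width
  have hw0 : 0 < ep / 2 := by linarith
  have hwl : ep / 2 < 1 / 8 * NUMF.l := by linarith
  obtain ⟨K0, hK0⟩ : ∃ K0 : ℝ, K0 = |KO (1 / 8) (ep / 2)| := ⟨_, rfl⟩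
  have hK00 : 0 ≤ K0 := by rw [hK0]; exact abs_nonneg _
  have h2 : Filter.Tendsto (fun m : ℕ => (m : ℝ) ^ (-κ)) Filter.atTop (nhds 0) :=
    (tendsto_rpow_neg_atTop hκ).comp tendsto_natCast_atTop_atTop
  have h3 := h2.eventually_lt_const (u := ep / 2) hw0
  have h4 := (Real.tendsto_log_atTop.comp tendsto_natCast_atTop_atTop).eventually_ge_atTop
    (max 8 (K0 + 4))
  obtain ⟨m2, hm2⟩ := Filter.eventually_atTop.1 (h3.and h4)
  refine ⟨max m1 m2, fun m hm s R c0 M P η η1 A r O aX aY hs1 hs2 hM hP hR1 hR2 hbR hcur hd hA hc0 hr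
    hht ha0 hb0 ham hbm hX hY => ?_⟩
  obtain ⟨g1, g2⟩ := hm2 m ((le_max_right _ _).trans hm)
  have hmm1 : m1 ≤ m := (le_max_left _ _).trans hm
  obtain ⟨L, hL⟩ : ∃ L, L = Real.log m := ⟨_, rfl⟩
  have g2' : max 8 (K0 + 4) ≤ Real.log m := g2
  rw [← hL] at g2'
  have hL8 : 8 ≤ L := (le_max_left _ _).trans g2'
  have hLK : K0 + 4 ≤ L := (le_max_right _ _).trans g2'
  have hbd : (1 - e1) * Tb (Real.log m) = R1f e1 m + 1 := by
    unfold R1f Tb
    ring
  have hb2 : (1 - e1) * Tb (Real.log m) ≤ L := by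
    rw [← hL]
    unfold Tb
    nlinarith
  have hb00 : 0 ≤ (1 - e1) * Tb (Real.log m) := by
    rw [← hL]
    unfold Tb
    have : 0 ≤ 1 - e1 := by linarith
    positivity
  -- the potential
  have hF : ∀ (a : Bool) (z : ℂ), |z.re| ≤ (1 - e1) * Tb (Real.log m) + 2 → |z.im| < ep / 2 →
      DifferentiableAt ℂ (fun z => FO P O a z + A a z + lph ep M z + (c0 : ℂ)) z ∧
      ‖FO P O a z + A a z + lph ep M z + (c0 : ℂ)‖ ≤ L ^ (k + 5) := by
    intro a z hz1 hz2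
    obtain ⟨d1, n1⟩ := hA a z hz1 hz2
    obtain ⟨d2, -, n2, -⟩ := HL m hmm1 M hM z (by rw [hbd] at hz1; linarith) hz2.le
    have d3 := (hasDerivAt_FO O hw0 hwl hP a hz2).differentiableAt
    have n3 := norm_FO O hw0 hwl hP a hz2
    refine ⟨((d3.fun_add d1).fun_add d2).fun_add (differentiableAt_const _), ?_⟩
    rw [← hL] at n1 hc0 hr
    have hLk : 1 ≤ L ^ k := one_le_pow₀ (by linarith)
    have n4 : ‖FO P O a z‖ ≤ K0 * (L * (4 * L ^ 2)) := by
      refine n3.trans ?_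
      have s1 : ∑ i, (1 + |z.re - ht (O i)|) ≤ r * (4 * L ^ 2) := by
        have : ∀ i : Fin r, 1 + |z.re - ht (O i)| ≤ 4 * L ^ 2 := by
          intro i
          have t1 := abs_sub z.re (ht (O i))
          have t2 := hht i
          rw [← hL] at t2
          have t3 : |z.re| ≤ L + 2 := hz1.trans (by linarith)
          nlinarith
        refine (Finset.sum_le_sum fun i _ => this i).trans (le_of_eq ?_)
        rw [Finset.sum_const, Finset.card_univ, Fintype.card_fin, nsmul_eq_mul]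
      have s0 : 0 ≤ ∑ i, (1 + |z.re - ht (O i)|) := Finset.sum_nonneg fun i _ => by positivity
      calc KO (1 / 8) (ep / 2) * ∑ i, (1 + |z.re - ht (O i)|) ≤
            K0 * ∑ i, (1 + |z.re - ht (O i)|) := by
            rw [hK0]
            exact mul_le_mul_of_nonneg_right (le_abs_self _) s0
        _ ≤ K0 * (r * (4 * L ^ 2)) := mul_le_mul_of_nonneg_left s1 hK00
        _ ≤ K0 * (L * (4 * L ^ 2)) := by gcongr
    have n5 : ‖(c0 : ℂ)‖ ≤ L ^ k := by
      rw [Complex.norm_real]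
      exact hc0
    calc ‖FO P O a z + A a z + lph ep M z + (c0 : ℂ)‖
        ≤ ‖FO P O a z‖ + ‖A a z‖ + ‖lph ep M z‖ + ‖(c0 : ℂ)‖ := by
          refine (norm_add_le _ _).trans ?_
          gcongr
          refine (norm_add_le _ _).trans ?_
          gcongr
          exact norm_add_le _ _
      _ ≤ K0 * (L * (4 * L ^ 2)) + L ^ k + 1 + L ^ k := by gcongr
      _ ≤ K0 * (L * (4 * L ^ 2)) * L ^ k + L ^ k + L ^ k + L ^ k := by
          have : K0 * (L * (4 * L ^ 2)) * 1 ≤ K0 * (L * (4 * L ^ 2)) * L ^ k :=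
            mul_le_mul_of_nonneg_left hLk (by positivity)
          linarith
      _ = (K0 * 4 * L ^ 3 + 3) * L ^ k := by ring
      _ ≤ L ^ 5 * L ^ k := by
          refine mul_le_mul_of_nonneg_right ?_ (by positivity)
          have t1 : K0 * 4 * L ^ 3 ≤ (L - 4) * 4 * L ^ 3 := by
            have : K0 ≤ L - 4 := by linarith
            gcongr
          have t2 : 1 ≤ L ^ 3 := one_le_pow₀ (by linarith)
          nlinarith [mul_nonneg (mul_nonneg (by linarith : 0 ≤ L) (by linarith : 0 ≤ L - 8))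
            (by positivity : 0 ≤ L ^ 3)]
      _ = L ^ (k + 5) := by ring
  -- the curve is in the strip
  have hη : ∀ t, |η t| < ep / 2 := by
    intro t
    obtain ⟨ε, Mc, ec, hc, hc1, -⟩ := hcur
    have h5 := hc.O4.1 t
    exact lt_of_le_of_lt (h5.trans hc1) g1
  -- exactness
  have hex : ∀ (a : Bool) (f : ℝ → ℝ), (∀ t, |t| ≤ (1 - e1) * Tb (Real.log m) →
      f t = Real.exp (s * (NUMF.vc ((t : ℂ) + dA η t)).re + (A a ((t : ℂ) + dA η t)).re + c0) *
        ‖ph M (4 / 3 * (1 - ep)) (pA η t)‖ * ∏ i, potN P O i a (pA η t)) →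
      ∀ t, |t| ≤ (1 - e1) * Tb (Real.log m) → f t = Real.exp (s * (NUAct.vc (NUAct.zt (iD η) t)).re +
        (FO P O a (NUAct.zt (iD η) t) + A a (NUAct.zt (iD η) t) + lph ep M (NUAct.zt (iD η) t) +
          (c0 : ℂ)).re + 0) := by
    intro a f hf t ht
    have hzt : NUAct.zt (iD η) t = (t : ℂ) + (η t : ℂ) * Complex.I := rfl
    have hdA : dA η t = (η t : ℂ) * Complex.I := rfl
    have him : |((t : ℂ) + (η t : ℂ) * Complex.I).im| < ep / 2 := by simpa using hη t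
    have hre : |((t : ℂ) + (η t : ℂ) * Complex.I).re| ≤ R1f e1 m + 5 := by
      have : ((t : ℂ) + (η t : ℂ) * Complex.I).re = t := by simp
      rw [this]
      rw [hbd] at ht
      linarith
    obtain ⟨-, -, -, n2⟩ := HL m hmm1 M hM _ hre him.le
    rw [uz_curve] at n2
    have hpr := prod_potN O hP a (η := η) (t := t) ((hη t).trans hwl)
    rw [hf t ht, hzt, hdA, n2, re_vc (by linarith)]
    have hpA : (∏ i, potN P O i a (pA η t)) = Real.exp (FO P O a (t + (η t : ℂ) * Complex.I)).re := hpr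
    rw [hpA, ← Real.exp_add, ← Real.exp_add]
    congr 1
    simp only [Complex.add_re, Complex.ofReal_re]
    ring
  have hExt : NUR2.Ext 4 ((1 - e1) * Tb (Real.log m)) 0 (fun _ => 0) :=
    NUR2.Ext.of_O (NUOC.O.const 4 (by rw [abs_zero]))
  refine ⟨hs1, hs2, hR1, hR2, hbd.ge, hbR, ?_, ?_, hd, hd, ha0, hb0, ham, hbm, ?_, ?_⟩
  · obtain ⟨ε, Mc, ec, hc, hc1, hc2⟩ := hcur
    refine ⟨ε, Mc, ec, hc, hc1, hc2.trans ?_⟩
    rw [← hL]
    exact pow_le_pow_right₀ (by linarith) (by omega)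
  · obtain ⟨ε, Mc, ec, hc, hc1, hc2⟩ := hcur
    refine ⟨ε, Mc, ec, hc, hc1, hc2.trans ?_⟩
    rw [← hL]
    exact pow_le_pow_right₀ (by linarith) (by omega)
  · refine ⟨L ^ (k + 5), 0, fun z => FO P O true z + A true z + lph ep M z + (c0 : ℂ), fun _ => 0,
      by positivity, by rw [hL], by rw [← hL]; positivity, hF true, hExt, hex true aX hX⟩
  · refine ⟨L ^ (k + 5), 0, fun z => FO P O false z + A false z + lph ep M z + (c0 : ℂ), fun _ => 0,
      by positivity, by rw [hL], by rw [← hL]; positivity, hF false, hExt, hex false aY hY⟩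

/-- **TARGET-A**: the one body factors `e^{c0} aA` on the curve `etaA e1 J m`, window `2 (log m)²` -/
theorem gd_A {ep e1 J : ℝ} (hep : 0 < ep) (hep1 : ep ≤ 1 / 100) (he : 0 < e1) (he1 : e1 ≤ 1 / 4)
    (hJ : 0 ≤ J) : ∃ m0 : ℕ, ∀ m ≥ m0, ∀ (c0 : ℝ) (r : ℕ) (O : Fin r → Xo) (aX aY : ℝ → ℝ),
    |c0| ≤ 1 → (r : ℝ) ≤ Real.log m → (∀ i, |ht (O i)| ≤ Real.log m ^ 2) →
    Measurable aX → Measurable aY →
    (∀ t, aX t = Real.exp c0 * aA m (4 / 3 * (1 - ep)) (par0 m) (etaA e1 J m) O true t) →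
    (∀ t, aY t = Real.exp c0 * aA m (4 / 3 * (1 - ep)) (par0 m) (etaA e1 J m) O false t) →
    GD m 6 (e1 / 2) e1 (ep / 2) m (2 * Real.log m ^ 2) ((1 - e1) * Tb (Real.log m)) (etaA e1 J m)
      (etaA' e1 J m) (etaA e1 J m) (etaA' e1 J m) aX aY := by
  obtain ⟨m1, H1⟩ := cur_A he (by linarith) hJ
  obtain ⟨m2, H2⟩ := gd_conf (κ := e1 / 2) hep hep1 he he1 (by linarith) 1
  have h4 := (Real.tendsto_log_atTop.comp tendsto_natCast_atTop_atTop).eventually_ge_atTop (3 : ℝ)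
  obtain ⟨m3, hm3⟩ := Filter.eventually_atTop.1 h4
  refine ⟨max m1 (max m2 m3), fun m hm c0 r O aX aY hc0 hr hht hmX hmY hX hY => ?_⟩
  have hL : 3 ≤ Real.log m := hm3 m (((le_max_right _ _).trans (le_max_right _ _)).trans hm)
  have hm0 : (0 : ℝ) ≤ m := Nat.cast_nonneg m
  obtain ⟨ε, M, ec, hc, hc1, hc2⟩ := H1 m ((le_max_left _ _).trans hm)
  have hb : (1 - e1) * Tb (Real.log m) ≤ Real.log m := by
    unfold Tb
    nlinarith
  refine H2 m (((le_max_left _ _).trans (le_max_right _ _)).trans hm) m (2 * Real.log m ^ 2) c0 m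
    (par0 m) (etaA e1 J m) (etaA' e1 J m) (fun _ _ => 0) r O aX aY (by linarith) (by linarith) le_rfl
    (pg_par0 m) (by nlinarith) le_rfl (by nlinarith) ⟨ε, M, ec, hc, hc1, by rwa [pow_one]⟩
    (etaA_hasDeriv e1 J m) ?_ (by rw [pow_one]; linarith) hr hht ?_ ?_ hmX hmY ?_ ?_
  · intro a z _ _
    refine ⟨differentiableAt_const _, ?_⟩
    rw [norm_zero, pow_one]
    linarith
  · intro t
    rw [hX t]
    exact mul_nonneg (Real.exp_pos _).le (aA_nonneg _ _ _ _ _ _ _)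
  · intro t
    rw [hY t]
    exact mul_nonneg (Real.exp_pos _).le (aA_nonneg _ _ _ _ _ _ _)
  · intro t _
    rw [hX t]
    unfold aA
    rw [Complex.zero_re, add_zero, Real.exp_add]
    ring
  · intro t _
    rw [hY t]
    unfold aA
    rw [Complex.zero_re, add_zero, Real.exp_add]
    ring

end

end NUS4
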