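import Pool.Agent.NUE.RevProf

/-!
# [4.9] of proof/NU_ABS_4, abstract part: grid, dichotomy, powers of `m`
-/

set_option autoImplicit false

namespace NUS4

open MeasureTheory NUMF NUE

/-- number of grid points of step `h` on one side of `|t| ≤ X` -/
noncomputable def gM (h X : ℝ) : ℕ := ⌊X / h⌋₊

/-- number of grid points -/
noncomputable def gN (h X : ℝ) : ℕ := 2 * gM h X + 1

/-- the grid points -/
noncomputable def gp (h X : ℝ) (a : Fin (gN h X)) : ℝ := h * ((a : ℝ) - gM h X)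

lemma gM_le {h X : ℝ} (hh : 0 < h) (hX : 0 ≤ X) : (gM h X : ℝ) * h ≤ X := by
  unfold gM
  rw [← le_div_iff₀ hh]
  exact Nat.floor_le (by positivity)

lemma lt_gM {h X : ℝ} (hh : 0 < h) : X < ((gM h X : ℝ) + 1) * h := by
  unfold gM
  rw [← div_lt_iff₀ hh]
  exact Nat.lt_floor_add_one _

lemma abs_gp_le {h X : ℝ} (hh : 0 < h) (hX : 0 ≤ X) (a : Fin (gN h X)) : |gp h X a| ≤ X := by
  have h1 := gM_le hh hX
  have h2 : (a : ℕ) ≤ 2 * gM h X := by
    have := a.2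
    unfold gN at this
    omega
  have h3 : (a : ℝ) ≤ 2 * gM h X := by exact_mod_cast h2
  have h4 : (0 : ℝ) ≤ (a : ℝ) := Nat.cast_nonneg _
  unfold gp
  rw [abs_mul, abs_of_pos hh]
  have h5 : |(a : ℝ) - gM h X| ≤ gM h X := by
    rw [abs_le]
    constructor <;> linarith
  calc h * |(a : ℝ) - gM h X| ≤ h * gM h X := mul_le_mul_of_nonneg_left h5 hh.le
    _ ≤ X := by linarith

lemma gp_sub {h X : ℝ} (a b : Fin (gN h X)) : gp h X a - gp h X b = h * ((a : ℝ) - (b : ℝ)) := by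
  unfold gp
  ring

lemma le_gN {h X : ℝ} (hh : 0 < h) : 2 * X - h ≤ (gN h X : ℝ) * h := by
  have h1 := lt_gM (X := X) hh
  unfold gN
  push_cast
  nlinarith

lemma gN_le {h X : ℝ} (hh : 0 < h) (hX : 0 ≤ X) : (gN h X : ℝ) * h ≤ 2 * X + h := by
  have h1 := gM_le hh hX
  unfold gN
  push_cast
  nlinarith

/-- sums over the grid as sums over `Finset.Icc (-M) M` (form of `NUE.br2_tau`, offset `0`) -/
lemma sum_grid {h X : ℝ} (f : ℝ → ℝ) :
    ∑ a : Fin (gN h X), f (gp h X a) = ∑ l ∈ Finset.Icc (-(gM h X : ℤ)) (gM h X), f (l * h) := by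
  symm
  refine Finset.sum_bij' (fun l _ => (⟨(l + gM h X).toNat % gN h X, Nat.mod_lt _ (by unfold gN; omega)⟩ : Fin (gN h X)))
    (fun a _ => (a : ℤ) - gM h X) ?_ ?_ ?_ ?_ ?_
  · intro l _
    exact Finset.mem_univ _
  · intro a _
    have := a.2
    unfold gN at this
    rw [Finset.mem_Icc]
    omega
  · intro l hl
    rw [Finset.mem_Icc] at hl
    have h1 : (l + gM h X).toNat < gN h X := by
      unfold gN
      omega
    simp only [Nat.mod_eq_of_lt h1]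
    omega
  · intro a _
    ext
    simp only [sub_add_cancel, Int.toNat_natCast, Nat.mod_eq_of_lt a.2]
  · intro l hl
    rw [Finset.mem_Icc] at hl
    have h1 : (l + gM h X).toNat < gN h X := by
      unfold gN
      omega
    congr 1
    unfold gp
    simp only [Nat.mod_eq_of_lt h1]
    have h2 : (((l + gM h X).toNat : ℕ) : ℝ) = (l : ℝ) + gM h X := by
      have h3 : (((l + gM h X).toNat : ℕ) : ℤ) = l + gM h X := Int.toNat_of_nonneg (by omega)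
      have h4 := congrArg (fun z : ℤ => (z : ℝ)) h3
      push_cast at h4
      exact_mod_cast h4
    rw [h2]
    ring

/-- radius of the ball of the field -/
noncomputable def gR (η : ℝ) (N : ℕ) : ℝ := Real.sqrt ((2 * (N : ℝ) + 4) / η)

lemma gR_nonneg (η : ℝ) (N : ℕ) : 0 ≤ gR η N := Real.sqrt_nonneg _

lemma gR_sq {η : ℝ} (hη : 0 < η) (N : ℕ) : gR η N ^ 2 = (2 * (N : ℝ) + 4) / η := by
  unfold gR
  rw [Real.sq_sqrt (by positivity)]

/-- **[4.9], abstract form.**  For `ε, e` small: profile `c`, then for every grid step `h < π / K` a constant `C₀`;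
for every `m ≥ 1` and every positive measure `μ` with fields `F` on the grid in `|t| ≤ (1 - 2e)(3/8) log m`:
if either `Z₁ ≤ A m^(a-1/2)` or the lower bound of the exponential moments holds, then
`Z₁ ≤ C₀ e^{e'} A m^{a - 1/2 + ε}` whenever `∫ e^{½ Σ F²} dμ ≤ A m^a`, `a ≥ 1/2`. -/
theorem core {ε : ℝ} (hε : 0 < ε) (hε1 : ε ≤ 1) : ∃ (δ K η : ℝ) (c : ℝ → ℝ), 0 < δ ∧ δ < K ∧ 0 < η ∧
    ContDiff ℝ ((⊤ : ℕ∞) : WithTop ℕ∞) c ∧ (∀ k, 0 ≤ c k) ∧ (∀ k, c (-k) = c k) ∧ (∀ k, |k| ≤ δ → c k = 0) ∧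
    (∀ k, K ≤ |k| → c k = 0) ∧ (∀ k, k ≠ 0 → c k ^ 2 ≤ Lh k) ∧ Continuous (rs c) ∧ (∀ k, rs c k ≤ 1 - η) ∧
    ∀ h : ℝ, 0 < h → K * h < Real.pi → ∃ C₀ : ℝ, 1 ≤ C₀ ∧ ∀ (e : ℝ), 0 ≤ e → e ≤ 1 / 2 →
      ∀ (m : ℕ), 1 ≤ m → ∀ (N : ℕ), N = gN h ((1 - 2 * e) * (3 / 8 * Real.log m)) →
      ∀ {Ω : Type*} [MeasurableSpace Ω] (μ : Measure Ω) [SFinite μ] (F : Fin N → Ω → ℝ) (A Z₁ e' a : ℝ)
        (l : (Fin N → ℝ) → ℝ), (∀ i, Measurable (F i)) → (∀ g, l (-g) = -l g) → 0 ≤ A → 0 ≤ Z₁ → 0 ≤ e' → 1 / 2 ≤ a →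
        ∫⁻ x, ENNReal.ofReal (Real.exp ((∑ i, F i x ^ 2) / 2)) ∂μ ≤ ENNReal.ofReal (A * (m : ℝ) ^ a) →
        (Z₁ ≤ A * (m : ℝ) ^ (a - 1 / 2) ∨ ∀ g : Fin N → ℝ, ∑ i, g i ^ 2 ≤ (2 * (N : ℝ) + 4) / η →
          ENNReal.ofReal (Z₁ * Real.exp ((∑ i, ∑ j, g i * toep (fun θ => rs c (θ / h)) N i j * g j) / 2 +
            l g - e')) ≤ ∫⁻ x, ENNReal.ofReal (Real.exp (∑ i, g i * F i x)) ∂μ) →
        Z₁ ≤ C₀ * Real.exp e' * A * (m : ℝ) ^ (a - 1 / 2 + (ε + e)) := by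
  obtain ⟨δ, K, η, c, hδ, hK, hη, hc1, hc2, hc3, hc4, hc5, hc6, hc7, hc8, hc9⟩ := R3 hε
  refine ⟨δ, K, η, c, hδ, hK, hη, hc1, hc2, hc3, hc4, hc5, hc6, hc7, hc8, fun h hh hKh => ?_⟩
  obtain ⟨Cst, hC⟩ := hc9 h hh hKh
  refine ⟨Real.exp (|Cst| + h), Real.one_le_exp (by positivity), ?_⟩
  intro e he0 he1 m hm N hN Ω _ μ _ F A Z₁ e' a l hF hl hA hZ1 he' ha hup hor
  have hm1 : (1 : ℝ) ≤ m := by exact_mod_cast hm
  have hm0 : (0 : ℝ) < m := by linarith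
  have hlog : 0 ≤ Real.log m := Real.log_nonneg hm1
  have hC1 : 1 ≤ Real.exp (|Cst| + h) := Real.one_le_exp (by positivity)
  rcases hor with h1 | h1
  · have h2 : (m : ℝ) ^ (a - 1 / 2) ≤ (m : ℝ) ^ (a - 1 / 2 + (ε + e)) :=
      Real.rpow_le_rpow_of_exponent_le hm1 (by linarith)
    have h3 : (1 : ℝ) ≤ Real.exp e' := Real.one_le_exp he'
    have h5 : 1 ≤ Real.exp (|Cst| + h) * Real.exp e' := one_le_mul_of_one_le_of_one_le hC1 h3
    calc Z₁ ≤ A * (m : ℝ) ^ (a - 1 / 2) := h1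
      _ ≤ A * (m : ℝ) ^ (a - 1 / 2 + (ε + e)) := mul_le_mul_of_nonneg_left h2 hA
      _ = 1 * (A * (m : ℝ) ^ (a - 1 / 2 + (ε + e))) := (one_mul _).symm
      _ ≤ (Real.exp (|Cst| + h) * Real.exp e') * (A * (m : ℝ) ^ (a - 1 / 2 + (ε + e))) :=
          mul_le_mul_of_nonneg_right h5 (by positivity)
      _ = _ := by ring
  · have h2 := hC N (gR η N) (gR_nonneg η N) (by
      rw [gR_sq hη]
      rw [mul_div_cancel₀ _ hη.ne']) μ F (A * (m : ℝ) ^ a) Z₁ e' l hF hl (by positivity) hZ1 hup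
      (fun g hg => h1 g (by rwa [gR_sq hη] at hg))
    refine h2.trans ?_
    have h3 := le_gN (h := h) (X := (1 - 2 * e) * (3 / 8 * Real.log m)) hh
    rw [← hN] at h3
    have hε2 : e' - 2 / 3 * (1 - ε) * (N * h) + Cst ≤ (|Cst| + h) + e' - (1 / 2 - (ε + e)) * Real.log m := by
      have h4 := le_abs_self Cst
      have h5 : 0 ≤ (N : ℝ) * h := by positivity
      have h7 : 2 / 3 * (1 - ε) * (2 * ((1 - 2 * e) * (3 / 8 * Real.log m)) - h) ≤ 2 / 3 * (1 - ε) * (N * h) :=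
        mul_le_mul_of_nonneg_left h3 (by linarith)
      have h8 : 2 / 3 * (1 - ε) * (2 * ((1 - 2 * e) * (3 / 8 * Real.log m)) - h) =
          (1 / 2 - (ε / 2 + e) + ε * e) * Real.log m - 2 / 3 * (1 - ε) * h := by ring
      have h9 : 2 / 3 * (1 - ε) * h ≤ h := by nlinarith
      have h10 : 0 ≤ ε * e * Real.log m := by positivity
      have h11 : 0 ≤ ε / 2 * Real.log m := by positivity
      nlinarith
    calc A * (m : ℝ) ^ a * Real.exp (e' - 2 / 3 * (1 - ε) * (N * h) + Cst)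
        ≤ A * (m : ℝ) ^ a * Real.exp ((|Cst| + h) + e' - (1 / 2 - (ε + e)) * Real.log m) := by gcongr
      _ = _ := by
        rw [Real.rpow_def_of_pos hm0, Real.rpow_def_of_pos hm0, sub_eq_add_neg, Real.exp_add, Real.exp_add]
        have : Real.exp (Real.log m * (a - 1 / 2 + (ε + e))) =
            Real.exp (Real.log m * a) * Real.exp (-((1 / 2 - (ε + e)) * Real.log m)) := by
          rw [← Real.exp_add]
          congr 1
          ring
        rw [this]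
        ring

end NUS4
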