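import Pool.Agent.NUS4.H1c
import Pool.Agent.NUR2.Field

/-!
# The field data of the modes (bridge from helper50's `NUR2.exists_OB`; helper73)
-/

set_option autoImplicit false

open MeasureTheory Set Filter Topology

namespace NUS4

open NUE NUOC NUDp NUKer NUR2 NUTr

noncomputable section

variable {δ K : ℝ} {c : ℝ → ℝ}

lemma ob_mono {R l l' : ℝ} {ψ ψ' a E I : ℝ → ℝ} {k k' : ℝ → ℝ → ℝ} (h : OB R l ψ ψ' a E I k k')
    (hl : l ≤ l') : OB R l' ψ ψ' a E I k k' :=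
  ⟨h.a0, h.am, h.cE, h.rel, h.small.mono hl⟩

/-- **the field data of all modes** -/
theorem exists_FD (hP : Prof δ K c) (h : ℝ) {κ : ℝ} (hκ : 0 < κ) (hκ1 : κ ≤ 1 / 10) : ∃ C cs : ℝ, 1 ≤ C ∧ 0 < cs ∧
    ∀ {s ε M b A Ar : ℝ} {eX eY ηX ηX1 ηY ηY1 ErX ErY aX aY : ℝ → ℝ} {FX FY : ℂ → ℂ} (R R1 : ℝ),
    0 ≤ R1 → R1 + 1 ≤ b → b + 3 ≤ R → 0 < s →
    NUAct.Cur s ε M b eX ηX → NUAct.Cur s ε M b eY ηY → (∀ t, HasDerivAt ηX (ηX1 t) t) →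
    (∀ t, HasDerivAt ηY (ηY1 t) t) → 0 ≤ A →
    (∀ z : ℂ, |z.re| ≤ b + 2 → |z.im| < κ → DifferentiableAt ℂ FX z ∧ ‖FX z‖ ≤ A) →
    (∀ z : ℂ, |z.re| ≤ b + 2 → |z.im| < κ → DifferentiableAt ℂ FY z ∧ ‖FY z‖ ≤ A) →
    NUR2.Ext 4 b Ar ErX → NUR2.Ext 4 b Ar ErY → (∀ x, 0 ≤ aX x) → (∀ x, 0 ≤ aY x) →
    Measurable aX → Measurable aY →
    (∀ x, |x| ≤ b → aX x = Real.exp (s * (NUAct.vc (NUAct.zt (iD ηX) x)).re +
      (FX (NUAct.zt (iD ηX) x)).re + ErX x)) →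
    (∀ x, |x| ≤ b → aY x = Real.exp (s * (NUAct.vc (NUAct.zt (iD ηY) x)).re +
      (FY (NUAct.zt (iD ηY) x)).re + ErY x)) →
    ∃ EX EY : ℝ → ℝ, ∀ {N : ℕ} (a : ℝ) (x : Fin N → ℝ), sz s R1 x ≤ cs →
      C * R ^ 7 * (ε + sz s R1 x) ≤ 1 →
      FD c h R R1 a s (C * (R ^ 8 * (M * (ε + sz s R1 x)) +
        R ^ 3 * ((A + s * Real.exp (-2 * R) + Ar) * sz s R1 x))) ηX ηX1 ηY ηY1 aX aY EX EY x := by
  obtain ⟨C2, cs, hC2, hcs, H2⟩ := geo hP h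
  obtain ⟨K1, hK1, H1⟩ := NUR2.exists_OBK hκ hκ1
  refine ⟨2 * (K1 * C2), cs / C2, by nlinarith, by positivity, ?_⟩
  intro s ε M b A Ar eX eY ηX ηX1 ηY ηY1 ErX ErY aX aY FX FY R R1 hR1 hb hbR hs hcX hcY hX hY hA
    hFX hFY hEX hEY aX0 aY0 aXm aYm haX haY
  have hR : 1 ≤ R := by linarith
  obtain ⟨EX, EY, HE⟩ := H1 (R := R) hR hbR hs.le hcX hcY hX hY hA hFX hFY hEX hEY aX0 aY0 aXm aYm
    haX haY
  refine ⟨EX, EY, fun {N} a x hsz hsm => ?_⟩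
  have hP0 := NUMF.P_pos (R1 + 1)
  have hsP : 0 < s * NUMF.P (R1 + 1) := mul_pos hs hP0
  obtain ⟨z, hz⟩ : ∃ z, z = sz s R1 x := ⟨_, rfl⟩
  have hzA : z = (∑ j, |x j|) / (s * NUMF.P (R1 + 1)) := hz
  have hx0 : 0 ≤ ∑ j, |x j| := Finset.sum_nonneg fun j _ => abs_nonneg _
  have hz0 : 0 ≤ z := by rw [hzA]; positivity
  have hC2p : 0 < C2 := by linarith
  have hK1p : 0 < K1 := by linarith
  have hε := hcX.ε0
  have hM := hcX.M0 hs.le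
  rw [← hz] at hsz hsm ⊢
  have g0 : C2 * ∑ j, |x j| ≤ cs * (s * NUMF.P (R1 + 1)) := by
    rw [hzA, div_le_div_iff₀ hsP hC2p] at hsz
    linarith
  obtain ⟨tr, bF', oX, oY, dX, dY, zX, zY, aX', aY'⟩ := H2 R R1 a s x hs hR1 (by linarith) g0
  rw [← hzA] at oX oY
  have hR7 : (1:ℝ) ≤ R ^ 7 := one_le_pow₀ hR
  have e0 : 1 ≤ K1 * C2 := one_le_mul_of_one_le_of_one_le hK1 hC2
  -- the size of the displacements
  have e1 : C2 * z ≤ 1 / 2 := by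
    have h1 : 2 * (C2 * z) ≤ 2 * (K1 * C2) * R ^ 7 * (ε + z) := by
      calc 2 * (C2 * z) = 2 * (1 * C2) * 1 * (0 + z) := by ring
        _ ≤ 2 * (K1 * C2) * R ^ 7 * (ε + z) := by gcongr
    linarith
  have e2 : K1 * R ^ 7 * (ε + C2 * z) ≤ 1 := by
    calc K1 * R ^ 7 * (ε + C2 * z) ≤ K1 * R ^ 7 * (C2 * ε + C2 * z) := by
          gcongr
          nlinarith
      _ = K1 * C2 * R ^ 7 * (ε + z) := by ring
      _ ≤ 2 * (K1 * C2) * R ^ 7 * (ε + z) := by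
          have : 0 ≤ K1 * C2 * R ^ 7 * (ε + z) := by positivity
          linarith
      _ ≤ 1 := hsm
  have XX : NUAct.Xi (C2 * z) b (fun t => pX c h R1 a s x t - t) (fun t => pX' c h R1 a s x t - 1) :=
    ⟨oX, dX, e1, by linarith, fun t ht => zX t (by linarith)⟩
  have XY : NUAct.Xi (C2 * z) b (fun t => pY c h R1 a s x t - t) (fun t => pY' c h R1 a s x t - 1) :=
    ⟨oY, dY, e1, by linarith, fun t ht => zY t (by linarith)⟩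
  obtain ⟨q1, q2⟩ := HE (C2 * z) (pX c h R1 a s x) (pX' c h R1 a s x) (pY c h R1 a s x)
    (pY' c h R1 a s x) e2 XX XY
  have hAr : 0 ≤ Ar := hEX.nonneg
  have hl : K1 * (R ^ 8 * (M * (ε + C2 * z)) + R ^ 3 * ((A + s * Real.exp (-2 * R) + Ar) * (C2 * z))) ≤
      2 * (K1 * C2) * (R ^ 8 * (M * (ε + z)) + R ^ 3 * ((A + s * Real.exp (-2 * R) + Ar) * z)) := by
    have h1 : ε + C2 * z ≤ C2 * (ε + z) := by nlinarith
    calc K1 * (R ^ 8 * (M * (ε + C2 * z)) + R ^ 3 * ((A + s * Real.exp (-2 * R) + Ar) * (C2 * z)))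
        ≤ K1 * (R ^ 8 * (M * (C2 * (ε + z))) +
          R ^ 3 * ((A + s * Real.exp (-2 * R) + Ar) * (C2 * z))) := by gcongr
      _ = K1 * C2 * (R ^ 8 * (M * (ε + z)) + R ^ 3 * ((A + s * Real.exp (-2 * R) + Ar) * z)) := by
          ring
      _ ≤ _ := by
          have : 0 ≤ K1 * C2 * (R ^ 8 * (M * (ε + z)) +
            R ^ 3 * ((A + s * Real.exp (-2 * R) + Ar) * z)) := by positivity
          linarith
  exact ⟨ob_mono q1 hl, ob_mono q2 hl⟩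

end

end NUS4
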