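import Pool.Agent.NUS4.H1d
import Pool.Agent.NU42.Split
import Pool.Agent.NUDi.Num

/-!
# [4.9]: the sharp bound from H0 (grid squares), the squares SqW, the tail and H1

`fin`: for the weight `Wt` of the positive gas on the curve.
-/

set_option autoImplicit false

open MeasureTheory Set Filter Topology

namespace NUS4

open NUE NUMF NUKer NUR2 NUDi
open scoped ENNReal

noncomputable section

variable {p n : ℕ}

/-- the finite grid as a set of integers -/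
def gLa (h X : ℝ) : Finset ℤ := (Finset.range (gN h X)).image fun k : ℕ => (k : ℤ)

/-- the constants of the statistics -/
def ccτ (c : ℝ → ℝ) (h X : ℝ) (τ : ℝ → ℝ) (i : Fin (gN h X)) : ℝ := ∫ u, τ u * chi c h (u - gp h X i)

lemma sum_Fst (c : ℝ → ℝ) (h X : ℝ) (τ : ℝ → ℝ) (x : Cfg p n) :
    ∑ l ∈ gLa h X, NU42.Fst c h (-(h * gM h X)) τ l x.1 x.2 ^ 2 =
      ∑ i : Fin (gN h X), Fi c h X (ccτ c h X τ) i x ^ 2 := by
  unfold gLa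
  rw [Finset.sum_image (fun a _ b _ hab => by exact_mod_cast hab), Finset.sum_range]
  refine Finset.sum_congr rfl fun i _ => ?_
  have e : -(h * (gM h X : ℝ)) + ((((i : ℕ) : ℤ) : ℝ)) * h = gp h X i := by
    unfold gp
    push_cast
    ring
  unfold NU42.Fst Fi ccτ
  rw [e]

/-- the alternative (H1) on the window -/
def H1 (c : ℝ → ℝ) (h η X R e' : ℝ) (l : (Fin (gN h X) → ℝ) → ℝ) (cc : Fin (gN h X) → ℝ)
    (W : Cfg p n → ℝ≥0∞) : Prop :=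
  ∀ g : Fin (gN h X) → ℝ, ∑ i, g i ^ 2 ≤ (2 * (gN h X : ℝ) + 4) / η →
    (∫⁻ x in Bx R, W x) * ENNReal.ofReal (Real.exp ((∑ i, ∑ j, g i *
      toep (fun θ => rs c (θ / h)) (gN h X) i j * g j) / 2 + l g - e')) ≤
      ∫⁻ x in Bx R, W x * ENNReal.ofReal (Real.exp (∑ i, g i * Fi c h X cc i x))

/-- **the sharp bound** -/
theorem fin {ε : ℝ} (hε : 0 < ε) (hε1 : ε ≤ 1) : ∃ (δ K η : ℝ) (c : ℝ → ℝ), 0 < δ ∧ δ < K ∧ 0 < η ∧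
    ContDiff ℝ ((⊤ : ℕ∞) : WithTop ℕ∞) c ∧ (∀ k, 0 ≤ c k) ∧ (∀ k, c (-k) = c k) ∧ (∀ k, |k| ≤ δ → c k = 0) ∧
    (∀ k, K ≤ |k| → c k = 0) ∧ (∀ k, k ≠ 0 → c k ^ 2 ≤ Lh k) ∧ Continuous (rs c) ∧ (∀ k, rs c k ≤ 1 - η) ∧
    ∀ h : ℝ, 0 < h → K * h < Real.pi → ∀ {C₁ C₂ C₃ : ℝ}, 0 < C₁ → 0 ≤ C₂ → 0 ≤ C₃ →
      ∃ C₀ C₄ : ℝ, 1 ≤ C₀ ∧ 1 ≤ C₄ ∧ ∀ e : ℝ, 0 ≤ e → e ≤ 1 / 2 → ∀ m : ℕ, 3 ≤ m →
      ∀ {p n : ℕ} (W : Cfg p n → ℝ≥0∞) (R X A a e' M : ℝ) (ρ τ : ℝ → ℝ)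
        (l : (Fin (gN h X) → ℝ) → ℝ), X = (1 - 2 * e) * (3 / 8 * Real.log m) →
        Measurable W → 0 ≤ R → R ≤ 2 * Real.log m ^ 2 → Continuous ρ → 0 ≤ M → M ≤ C₂ * Real.log m ^ 6 →
        (∀ g, l (-g) = -l g) → 0 ≤ A → 0 ≤ e' → 1 / 2 ≤ a →
        ∫⁻ x, W x * ENNReal.ofReal (Real.exp (1 / 2 *
          ∑ i ∈ gLa h X, NU42.Fst c h (-(h * gM h X)) τ i x.1 x.2 ^ 2)) ≤ ENNReal.ofReal (A * (m : ℝ) ^ a) →
        ∫⁻ x in (Bx R)ᶜ, W x ≤ ENNReal.ofReal A →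
        SqW W R ρ (ENNReal.ofReal (A * (m : ℝ) ^ a * Real.exp C₃)) (1 / (8 * (C₁ * (R + 1)))) (1 + M) →
        (IsFiniteMeasure (mWin R W) → RigB (mWin R W) R ρ (C₄ * Real.log m ^ 8) →
          H1 c h η X R e' l (ccτ c h X τ) W) →
        ∫⁻ x, W x ≤ ENNReal.ofReal ((C₀ * Real.exp e' + 1) * A * (m : ℝ) ^ (a - 1 / 2 + (ε + e))) := by
  obtain ⟨δ, K, η, c, hδ, hK, hη, hc1, hc2, hc3, hc4, hc5, hc6, hc7, hc8, hc9⟩ := core_lint hε hε1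
  refine ⟨δ, K, η, c, hδ, hK, hη, hc1, hc2, hc3, hc4, hc5, hc6, hc7, hc8, fun h hh hKh C₁ C₂ C₃ h1 h2 h3 => ?_⟩
  obtain ⟨C₀, hC0, hC⟩ := hc9 h hh hKh
  obtain ⟨C₄, hC4, hD⟩ := dicho_rig h1 h2 h3
  refine ⟨C₀, C₄, hC0, hC4, ?_⟩
  intro e he0 he1 m hm p n W R X A a e' M ρ τ l hX hW hR hR2 hρ hM hM2 hl hA he' ha hup htail hsq hH1
  subst hX
  have hP : Prof δ K c := ⟨hδ, hc1, hc3, hc4, hc5⟩
  have hF := fun i => Fi_meas (p := p) (n := n) hP h ((1 - 2 * e) * (3 / 8 * Real.log m))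
    (ccτ c h ((1 - 2 * e) * (3 / 8 * Real.log m)) τ) i
  have hB : MeasurableSet (Bx R : Set (Cfg p n)) := measurableSet_Bx R
  refine hC e he0 he1 m (by omega) _ rfl volume W (Bx R) _ A e' a l hW hB hF hl hA he' ha ?_ htail ?_
  · refine le_trans (le_of_eq ?_) hup
    refine lintegral_congr fun x => ?_
    rw [sum_Fst]
    congr 3
    ring
  · have hmW : ∫⁻ x in Bx R, W x = mWin R W univ := by
      unfold mWin
      rw [withDensity_apply _ MeasurableSet.univ, Measure.restrict_univ]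
    rcases hD m hm R hR hR2 hW hρ A a M hA hM hM2 hsq with h | ⟨h4, h5⟩
    · left
      rw [hmW]
      exact h
    · right
      exact hH1 h4 h5

end

end NUS4
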