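import Pool.Agent.NUS4.Core

/-!
# [4.9] of proof/NU_ABS_4: the abstract glue in the form of densities and a window

`core_lint`: weight `W` on `Ω`, window `K`; (H0) the linearised total, (tail) the part outside the
window, and either the window part is already small or the lower bound (H1) of the exponential
moments holds on the window.
-/

set_option autoImplicit false

namespace NUS4

open MeasureTheory NUMF NUE
open scoped ENNReal

theorem core_lint {ε : ℝ} (hε : 0 < ε) (hε1 : ε ≤ 1) : ∃ (δ K η : ℝ) (c : ℝ → ℝ), 0 < δ ∧ δ < K ∧ 0 < η ∧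
    ContDiff ℝ ((⊤ : ℕ∞) : WithTop ℕ∞) c ∧ (∀ k, 0 ≤ c k) ∧ (∀ k, c (-k) = c k) ∧ (∀ k, |k| ≤ δ → c k = 0) ∧
    (∀ k, K ≤ |k| → c k = 0) ∧ (∀ k, k ≠ 0 → c k ^ 2 ≤ Lh k) ∧ Continuous (rs c) ∧ (∀ k, rs c k ≤ 1 - η) ∧
    ∀ h : ℝ, 0 < h → K * h < Real.pi → ∃ C₀ : ℝ, 1 ≤ C₀ ∧ ∀ (e : ℝ), 0 ≤ e → e ≤ 1 / 2 →
      ∀ (m : ℕ), 1 ≤ m → ∀ (N : ℕ), N = gN h ((1 - 2 * e) * (3 / 8 * Real.log m)) →
      ∀ {Ω : Type*} [MeasurableSpace Ω] (μ : Measure Ω) [SFinite μ] (W : Ω → ℝ≥0∞) (B : Set Ω)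
        (F : Fin N → Ω → ℝ) (A e' a : ℝ) (l : (Fin N → ℝ) → ℝ), Measurable W → MeasurableSet B →
        (∀ i, Measurable (F i)) → (∀ g, l (-g) = -l g) → 0 ≤ A → 0 ≤ e' → 1 / 2 ≤ a →
        ∫⁻ x, W x * ENNReal.ofReal (Real.exp ((∑ i, F i x ^ 2) / 2)) ∂μ ≤ ENNReal.ofReal (A * (m : ℝ) ^ a) →
        ∫⁻ x in Bᶜ, W x ∂μ ≤ ENNReal.ofReal A →
        (∫⁻ x in B, W x ∂μ ≤ ENNReal.ofReal (A * (m : ℝ) ^ (a - 1 / 2)) ∨
          ∀ g : Fin N → ℝ, ∑ i, g i ^ 2 ≤ (2 * (N : ℝ) + 4) / η →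
          (∫⁻ x in B, W x ∂μ) * ENNReal.ofReal (Real.exp ((∑ i, ∑ j, g i *
            toep (fun θ => rs c (θ / h)) N i j * g j) / 2 + l g - e')) ≤
            ∫⁻ x in B, W x * ENNReal.ofReal (Real.exp (∑ i, g i * F i x)) ∂μ) →
        ∫⁻ x, W x ∂μ ≤ ENNReal.ofReal ((C₀ * Real.exp e' + 1) * A * (m : ℝ) ^ (a - 1 / 2 + (ε + e))) := by
  obtain ⟨δ, K, η, c, hδ, hK, hη, hc1, hc2, hc3, hc4, hc5, hc6, hc7, hc8, hc9⟩ := core hε hε1
  refine ⟨δ, K, η, c, hδ, hK, hη, hc1, hc2, hc3, hc4, hc5, hc6, hc7, hc8, fun h hh hKh => ?_⟩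
  obtain ⟨C₀, hC0, hC⟩ := hc9 h hh hKh
  refine ⟨C₀, hC0, ?_⟩
  intro e he0 he1 m hm N hN Ω _ μ _ W B F A e' a l hW hB hF hl hA he' ha hup htail hor
  have hm1 : (1 : ℝ) ≤ m := by exact_mod_cast hm
  have hm0 : (0 : ℝ) < m := by linarith
  -- the window part is finite
  have hone : ∀ x, W x ≤ W x * ENNReal.ofReal (Real.exp ((∑ i, F i x ^ 2) / 2)) := by
    intro x
    have h1 : (1 : ℝ≥0∞) ≤ ENNReal.ofReal (Real.exp ((∑ i, F i x ^ 2) / 2)) := by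
      rw [← ENNReal.ofReal_one]
      refine ENNReal.ofReal_le_ofReal (Real.one_le_exp ?_)
      have := Finset.sum_nonneg (fun i (_ : i ∈ Finset.univ) => sq_nonneg (F i x))
      positivity
    calc W x = W x * 1 := (mul_one _).symm
      _ ≤ _ := by gcongr
  have hfin : ∫⁻ x in B, W x ∂μ ≠ ∞ := by
    refine ne_top_of_le_ne_top ENNReal.ofReal_ne_top (le_trans ?_ hup)
    calc ∫⁻ x in B, W x ∂μ ≤ ∫⁻ x, W x ∂μ := setLIntegral_le_lintegral _ _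
      _ ≤ _ := lintegral_mono hone
  -- the measure
  set ν : Measure Ω := (μ.restrict B).withDensity W with hν
  have hint : ∀ f : Ω → ℝ≥0∞, Measurable f → ∫⁻ x, f x ∂ν = ∫⁻ x in B, W x * f x ∂μ := by
    intro f hf
    rw [hν, lintegral_withDensity_eq_lintegral_mul _ hW hf]
    rfl
  have key := hC e he0 he1 m hm N hN ν F A (∫⁻ x in B, W x ∂μ).toReal e' a l hF hl hA ENNReal.toReal_nonneg
    he' ha (by
      rw [hint _ (by fun_prop)]
      exact (setLIntegral_le_lintegral _ _).trans hup) (by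
      rcases hor with h1 | h1
      · left
        exact ENNReal.toReal_le_of_le_ofReal (by positivity) h1
      · right
        intro g hg
        rw [hint _ (by fun_prop), ENNReal.ofReal_mul ENNReal.toReal_nonneg, ENNReal.ofReal_toReal hfin]
        exact h1 g hg)
  have h2 : ∫⁻ x in B, W x ∂μ ≤ ENNReal.ofReal (C₀ * Real.exp e' * A * (m : ℝ) ^ (a - 1 / 2 + (ε + e))) := by
    rw [← ENNReal.ofReal_toReal hfin]
    exact ENNReal.ofReal_le_ofReal key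
  have h3 : (1 : ℝ) ≤ (m : ℝ) ^ (a - 1 / 2 + (ε + e)) := Real.one_le_rpow hm1 (by linarith)
  rw [← lintegral_add_compl _ hB]
  refine (add_le_add h2 htail).trans ?_
  have hC0' : 0 ≤ C₀ := by linarith
  rw [← ENNReal.ofReal_add (by positivity) hA]
  refine ENNReal.ofReal_le_ofReal ?_
  have h4 : A * 1 ≤ A * (m : ℝ) ^ (a - 1 / 2 + (ε + e)) := mul_le_mul_of_nonneg_left h3 hA
  nlinarith

end NUS4
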