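import Pool.Agent.NUE.PsiD
import Pool.Agent.NUR2.Disp
import Pool.Agent.NUR2.DispK
import Pool.Agent.NUR2.Wo
import Pool.Agent.NUR2.Prep

/-!
# The displacement of the field modes, its transports, and their kernels (plug-in of [4.7])

`F = cutF c h R1 a x`, `F' = cutF' c h R1 a x` are the cut off displacement of the mode `x` and its
derivative; all sizes are `C * ∑ |x j|`.
-/

set_option autoImplicit false

open MeasureTheory Set Filter Topology

namespace NUS4

open NUE NUOC NUDp NUKer NUR2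

noncomputable section

/-! ### the two classes of smooth functions -/

lemma O_of_BD (n : ℕ) : ∀ {C : ℝ} {f : ℝ → ℝ}, BD n C f → O n C f := by
  induction n with
  | zero =>
    intro C f h
    refine ⟨h.1.continuous, fun x => ?_⟩
    have := h.2 0 le_rfl x
    rwa [iteratedDeriv_zero] at this
  | succ n ih =>
    intro C f h
    refine ⟨fun x => ?_, deriv f, fun x => h.hasDeriv x, ih ⟨?_, fun i hi t => ?_⟩⟩
    · have := h.2 0 (Nat.zero_le _) x
      rwa [iteratedDeriv_zero] at this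
    · have := (contDiff_infty_iff_deriv.1 h.1).2
      exact this
    · have := h.2 (i + 1) (by omega) t
      rwa [iteratedDeriv_succ'] at this

lemma O_deriv_of_BD {n : ℕ} {C : ℝ} {f f' : ℝ → ℝ} (h : BD (n + 1) C f)
    (hf : ∀ x, HasDerivAt f (f' x) x) : O n C f' := by
  have e : f' = deriv f := funext fun x => (hf x).deriv.symm
  rw [e]
  obtain ⟨-, g, hg, h2⟩ := O_of_BD (n + 1) h
  have e2 : g = deriv f := funext fun x => (hg x).deriv.symm
  rwa [e2] at h2

lemma BD.lower {n : ℕ} {C : ℝ} {f : ℝ → ℝ} (h : BD (n + 1) C f) : BD n C f :=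
  ⟨h.1, fun i hi t => h.2 i (by omega) t⟩

variable {δ K : ℝ} {c : ℝ → ℝ}

/-! ### signs -/

lemma grid_zero_of {N : ℕ} (f : ℝ → ℝ) (a h : ℝ) (t : ℝ) : grid f a h (0 : Fin N → ℝ) t = 0 := by
  unfold grid
  simp

lemma cutF'_neg {N : ℕ} (h R a : ℝ) (x : Fin N → ℝ) (t : ℝ) :
    cutF' c h R a (-x) t = - cutF' c h R a x t := by
  unfold cutF' cutD
  rw [grid_neg, grid_neg]
  ring

/-! ### the form of the displacement in the window -/

/-- **the even part of the action** -/
theorem psi_win (hP : Prof δ K c) {h : ℝ} (hh : 0 < h) (hK : K * h < Real.pi) (m : ℕ) :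
    ∃ C, 0 ≤ C ∧ ∀ {N : ℕ} (a : ℝ) (x : Fin N → ℝ) {R0 R1 R : ℝ}, 0 ≤ R0 → R0 < R1 → R1 + 1 < R →
      (∀ j : Fin N, |a + (j : ℕ) * h| ≤ R0) →
      (∑ i, ∑ j, x i * toep (fun θ => rs c (θ / h)) N i j * x j) / 2 -
        C * ((R1 / (R1 - R0)) ^ (m + 4) * ((1 + R1) ^ m)⁻¹ * ∑ j, |x j|) ^ 2 ≤
      -2 * (∫ t, cutF' c h R1 a x t * grid (chi c h) a h x t ∂(mW R)) -
        TT (mW R) (fun x y => Uw (x - y) - Ug (x - y)) (cutF' c h R1 a x) (cutF' c h R1 a x) := by
  obtain ⟨C, hC0, hC⟩ := psi_final hP hh hK m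
  refine ⟨C, hC0, ?_⟩
  intro N a x R0 R1 R hR0 hR hRR hg
  obtain ⟨M, hM⟩ := BD_Hc 1
  have h1 := hC a x hR0 hR hg
  refine h1.trans (le_of_eq ?_)
  have h2 := by_parts hP (h := h) (H := Hc R1) (H' := deriv (Hc R1)) (fun t => (hM R1).hasDeriv t)
    ((hM R1).1.continuous_deriv (by simp)) (M := 1)
    (fun t => abs_le.2 ⟨by linarith [Hc_nonneg R1 t], Hc_le_one R1 t⟩) (hM R1).deriv_le a x
  -- zero outside
  have hz : ∀ t, R < |t| → cutF' c h R1 a x t = 0 := by
    intro t ht
    have e : cutF c h R1 a x =ᶠ[𝓝 t] fun _ => 0 := by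
      filter_upwards [(continuous_abs.tendsto t).eventually (lt_mem_nhds ht)] with y hy
      exact cutF_zero (by linarith)
    exact (hasDerivAt_cutF hP a x t).unique ((hasDerivAt_const t (0:ℝ)).congr_of_eventuallyEq e)
  have hw : ∀ q : ℝ → ℝ, ∫ t, cutF' c h R1 a x t * q t ∂(mW R) = ∫ t, cutF' c h R1 a x t * q t := by
    intro q
    unfold mW
    refine setIntegral_eq_integral_of_forall_compl_eq_zero fun t ht => ?_
    have : R < |t| := by
      by_contra h0
      exact ht (abs_le.1 (not_lt.1 h0))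
    rw [hz t this, zero_mul]
  have e1 : ∫ t, cutF c h R1 a x t * grid (chi1 c h) a h x t =
      -∫ t, cutF' c h R1 a x t * grid (chi c h) a h x t ∂(mW R) := by
    rw [hw]
    unfold cutF' cutF
    rw [h2, neg_neg]
  have e2 : EE (cutF' c h R1 a x) (cutF' c h R1 a x) =
      TT (mW R) (fun x y => Uw (x - y) - Ug (x - y)) (cutF' c h R1 a x) (cutF' c h R1 a x) := by
    rw [EE_iter (Dn_cutF' hP a x) (Dn_cutF' hP a x)]
    unfold TT
    rw [hw]
    refine integral_congr_ae (Eventually.of_forall fun t => ?_)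
    simp only
    congr 1
    have e3 : ∫ y, (Uw (t - y) - Ug (t - y)) * cutF' c h R1 a x y ∂(mW R) =
        ∫ y, cutF' c h R1 a x y * (Uw (t - y) - Ug (t - y)) ∂(mW R) := by
      refine integral_congr_ae (Eventually.of_forall fun y => ?_)
      simp only
      ring
    rw [e3, hw]
    refine integral_congr_ae ?_
    have h0 : ∀ᵐ y : ℝ, y ≠ t := by simp [ae_iff, measure_singleton]
    filter_upwards [h0] with y hy
    have h3 : t - y ≠ 0 := sub_ne_zero.2 (Ne.symm hy)
    congr 1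
    unfold Ud NUMF.V Uw Ug
    rw [Real.log_mul (w_pos h3).ne' (NUMF.g_pos _).ne']
    ring
  rw [e1, e2]
  ring

end

end NUS4
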