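import Pool.Agent.NUS4.H1a
import Pool.Agent.NUR2.R2core

/-!
# The transports of a mode and all their kernels (plug-in of [4.7])
-/

set_option autoImplicit false

open MeasureTheory Set Filter Topology

namespace NUS4

open NUE NUOC NUDp NUKer NUR2 NUTr

noncomputable section

variable {δ K : ℝ} {c : ℝ → ℝ}

/-- hypotheses of the transport for the displacement of a mode -/
theorem hy_cut (hP : Prof δ K c) (h : ℝ) : ∃ CF, 1 ≤ CF ∧ ∀ {N : ℕ} (R1 a s c0 : ℝ) (x : Fin N → ℝ),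
    0 < s → 0 ≤ R1 → CF * ∑ j, |x j| ≤ c0 * (s * NUMF.P (R1 + 1)) →
    Hy 3 c0 s (CF * ∑ j, |x j|) (R1 + 1) (cutF c h R1 a x) (cutF' c h R1 a x) ∧
    Hy 3 c0 s (CF * ∑ j, |x j|) (R1 + 1) (fun t => - cutF c h R1 a x t)
      (fun t => - cutF' c h R1 a x t) := by
  obtain ⟨C, hC⟩ := BD_cutF hP 4 h
  refine ⟨|C| + 1, by linarith [abs_nonneg C], ?_⟩
  intro N R1 a s c0 x hs hR1 hsm
  have hx0 : 0 ≤ ∑ j, |x j| := Finset.sum_nonneg fun j _ => abs_nonneg _
  have h1 : BD 4 ((|C| + 1) * ∑ j, |x j|) (cutF c h R1 a x) :=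
    (hC R1 a x).mono (mul_le_mul_of_nonneg_right (by linarith [le_abs_self C]) hx0)
  have h2 : O 3 ((|C| + 1) * ∑ j, |x j|) (cutF' c h R1 a x) :=
    O_deriv_of_BD h1 (hasDerivAt_cutF hP a x)
  refine ⟨⟨hs, by linarith, hasDerivAt_cutF hP a x, (O_of_BD 4 h1).le, h2, fun t ht => cutF_zero ht,
    hsm⟩, ⟨hs, by linarith, fun t => (hasDerivAt_cutF hP a x t).neg, fun t => ?_, h2.neg,
    fun t ht => ?_, hsm⟩⟩
  · rw [abs_neg]
    exact (O_of_BD 4 h1).le t
  · rw [cutF_zero ht, neg_zero]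

lemma ps'_meas {j : ℕ} {c0 s M b : ℝ} {F F' : ℝ → ℝ} (h : Hy j c0 s M b F F') (hc : c0 ≤ c1) :
    Measurable (ps' s F F') := by
  have h1 : Measurable F' := h.od.cont.measurable
  have h2 := (ps_cont h hc).measurable
  have h3 : Measurable NUMF.P := NUMF.P_cont.measurable
  unfold ps'
  fun_prop

/-- **all data of the transports of a mode** -/
theorem geo (hP : Prof δ K c) (h : ℝ) : ∃ C cs : ℝ, 1 ≤ C ∧ 0 < cs ∧ ∀ {N : ℕ} (R R1 a s : ℝ)
    (x : Fin N → ℝ), 0 < s → 0 ≤ R1 → R1 + 1 < R → C * ∑ j, |x j| ≤ cs * (s * NUMF.P (R1 + 1)) →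
    Tr R (fun t => s * NUMF.P t) (cutF' c h R1 a x) (ps s (cutF c h R1 a x))
      (ps' s (cutF c h R1 a x) (cutF' c h R1 a x)) (ps s fun t => - cutF c h R1 a x t)
      (ps' s (fun t => - cutF c h R1 a x t) fun t => - cutF' c h R1 a x t) ∧
    (∀ t, |cutF' c h R1 a x t| ≤ C * ∑ j, |x j|) ∧
    O 4 (C * ((∑ j, |x j|) / (s * NUMF.P (R1 + 1)))) (fun t => ps s (cutF c h R1 a x) t - t) ∧
    O 4 (C * ((∑ j, |x j|) / (s * NUMF.P (R1 + 1)))) (fun t => ps s (fun t => - cutF c h R1 a x t) t - t) ∧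
    (∀ t, HasDerivAt (fun t => ps s (cutF c h R1 a x) t - t)
      (ps' s (cutF c h R1 a x) (cutF' c h R1 a x) t - 1) t) ∧
    (∀ t, HasDerivAt (fun t => ps s (fun t => - cutF c h R1 a x t) t - t)
      (ps' s (fun t => - cutF c h R1 a x t) (fun t => - cutF' c h R1 a x t) t - 1) t) ∧
    (∀ t, R1 + 1 ≤ |t| → ps s (cutF c h R1 a x) t - t = 0) ∧
    (∀ t, R1 + 1 ≤ |t| → ps s (fun t => - cutF c h R1 a x t) t - t = 0) ∧
    (∀ b t, R1 + 1 ≤ b → (|ps s (cutF c h R1 a x) t| ≤ b ↔ |t| ≤ b)) ∧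
    (∀ b t, R1 + 1 ≤ b → (|ps s (fun t => - cutF c h R1 a x t) t| ≤ b ↔ |t| ≤ b)) := by
  obtain ⟨CF, hCF, HF⟩ := hy_cut hP h
  obtain ⟨Cx, c0, hCx, hc0, hcc, Hx⟩ := xi_O 3
  have hc1 := c1_pos
  refine ⟨Cx * CF, c0, by nlinarith, hc0, ?_⟩
  intro N R R1 a s x hs hR1 hR hsm
  have hx0 : 0 ≤ ∑ j, |x j| := Finset.sum_nonneg fun j _ => abs_nonneg _
  have hCC : CF * ∑ j, |x j| ≤ Cx * CF * ∑ j, |x j| :=
    mul_le_mul_of_nonneg_right (by nlinarith) hx0
  obtain ⟨g1, g2⟩ := HF R1 a s c0 x hs hR1 (hCC.trans hsm)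
  have hcc' : c0 ≤ c1 := by linarith
  have hmass := ps_mass g1
  have hmass2 := ps_mass g2
  have hP0 := NUMF.P_pos (R1 + 1)
  have hl : Cx * (CF * (∑ j, |x j|) / (s * NUMF.P (R1 + 1))) =
      Cx * CF * ((∑ j, |x j|) / (s * NUMF.P (R1 + 1))) := by ring
  have o1 := Hx g1
  have o2 := Hx g2
  rw [hl] at o1 o2
  refine ⟨?_, ?_, o1, o2, fun t => (ps_deriv g1 hcc' t).sub (hasDerivAt_id t),
    fun t => (ps_deriv g2 hcc' t).sub (hasDerivAt_id t), fun t ht => ?_, fun t ht => ?_,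
    fun b t hb => ps_abs g1 hcc hb t, fun b t hb => ps_abs g2 hcc hb t⟩
  · exact
      { R0 := by linarith
        cρ := continuous_const.mul NUMF.P_cont
        bρ := by
          refine ⟨s * (32 / (3 * √3 * Real.pi)), fun t => ?_⟩
          have h3 := NUMF.sq3_pos
          have h4 := Real.pi_pos
          rw [abs_mul, abs_of_pos hs, abs_of_pos (NUMF.P_pos t)]
          refine mul_le_mul_of_nonneg_left ((NUMF.P_le t).trans ?_) hs.le
          refine mul_le_of_le_one_right (by positivity) (Real.exp_le_one_iff.2 ?_)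
          have := abs_nonneg t
          linarith
        cF := g1.od.cont
        sF := fun t ht => g1.zero' (lt_of_lt_of_le hR ht)
        dX := ps_dif g1 hcc
        dY := ps_dif g2 hcc
        mX := ps'_meas g1 hcc'
        mY := ps'_meas g2 hcc'
        bX := ps_abs g1 hcc hR.le
        bY := ps_abs g2 hcc hR.le
        massX := fun t _ => hmass t
        massY := fun t _ => by
          have := hmass2 t
          simp only [← sub_eq_add_neg] at this
          exact this }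
  · intro t
    exact (g1.od.le t).trans hCC
  · rw [ps_zero g1 ht, sub_self]
  · rw [ps_zero g2 ht, sub_self]

end

end NUS4
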