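import Pool.Agent.NUS4.H1c
import Pool.Agent.NUS4.Glue

/-!
# The lower bound of the exponential moments in the form of `NUS4.core_lint`
-/

set_option autoImplicit false

open MeasureTheory Set Filter Topology

namespace NUS4

open NUE NUOC NUDp NUKer NUR2 NUTr
open scoped ENNReal

noncomputable section

variable {δ K : ℝ} {c : ℝ → ℝ} {p n : ℕ}

/-- the statistics of the grid -/
def Fi (c : ℝ → ℝ) (h X : ℝ) (cc : Fin (gN h X) → ℝ) (i : Fin (gN h X)) (x : Cfg p n) : ℝ :=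
  ∑ a, chi c h (x.1 a - gp h X i) - ∑ b, chi c h (x.2 b - gp h X i) - cc i

lemma chi_cont (hP : Prof δ K c) (h : ℝ) : Continuous (chi c h) :=
  continuous_iff_continuousAt.2 fun t => (hasDerivAt_chi hP h t).continuousAt

lemma Fi_meas (hP : Prof δ K c) (h X : ℝ) (cc : Fin (gN h X) → ℝ) (i : Fin (gN h X)) :
    Measurable (Fi (p := p) (n := n) c h X cc i) := by
  have h1 := (chi_cont hP h).measurable
  have h2 : ∀ a : Fin p, Measurable fun x : Cfg p n => x.1 a := fun a => by fun_prop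
  have h3 : ∀ a : Fin n, Measurable fun x : Cfg p n => x.2 a := fun a => by fun_prop
  unfold Fi
  refine ((Finset.measurable_sum _ fun a _ => ?_).sub (Finset.measurable_sum _ fun b _ => ?_)).sub_const _
  · exact h1.comp ((h2 a).sub_const _)
  · exact h1.comp ((h3 b).sub_const _)

lemma sum_Fi (h X : ℝ) (cc g : Fin (gN h X) → ℝ) (x : Cfg p n) :
    ∑ i, g i * Fi c h X cc i x = (∑ a, grid (chi c h) (-(h * gM h X)) h g (x.1 a) -
      ∑ b, grid (chi c h) (-(h * gM h X)) h g (x.2 b)) - ∑ i, g i * cc i := by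
  have e1 : ∀ t : ℝ, grid (chi c h) (-(h * gM h X)) h g t = ∑ i, g i * chi c h (t - gp h X i) := by
    intro t
    unfold grid
    refine Finset.sum_congr rfl fun i _ => ?_
    congr 2
    unfold gp
    ring
  simp only [e1, Fi]
  rw [Finset.sum_comm, Finset.sum_comm (s := (Finset.univ : Finset (Fin n)))]
  rw [← Finset.sum_sub_distrib, ← Finset.sum_sub_distrib]
  refine Finset.sum_congr rfl fun i _ => ?_
  rw [← Finset.mul_sum, ← Finset.mul_sum]
  ring

lemma abs_grid_le {h X : ℝ} (hh : 0 < h) (hX : 0 ≤ X) (j : Fin (gN h X)) :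
    |-(h * gM h X) + ((j : ℕ) : ℝ) * h| ≤ X := by
  have h1 := abs_gp_le hh hX j
  unfold gp at h1
  have e : -(h * gM h X) + ((j : ℕ) : ℝ) * h = h * ((j : ℝ) - gM h X) := by ring
  rw [e]
  exact h1

/-- the weight -/
abbrev Wt (ηX ηX1 ηY ηY1 aX aY : ℝ → ℝ) (x : Cfg p n) : ℝ≥0∞ :=
  ENNReal.ofReal (NU42.WO (iD ηX) (iD ηX1) (iD ηY) (iD ηY1) aX aY x.1 x.2)

lemma iD_meas {η : ℝ → ℝ} (h : Measurable η) : Measurable (iD η) := by
  unfold iD
  fun_prop

lemma Wt_meas {ηX ηX1 ηY ηY1 aX aY : ℝ → ℝ} (h1 : Measurable ηX) (h2 : Measurable ηX1)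
    (h3 : Measurable ηY) (h4 : Measurable ηY1) (h5 : Measurable aX) (h6 : Measurable aY) :
    Measurable (Wt (p := p) (n := n) ηX ηX1 ηY ηY1 aX aY) :=
  ENNReal.measurable_ofReal.comp
    (NU42.WO_meas (iD_meas h1) (iD_meas h2) (iD_meas h3) (iD_meas h4) h5 h6)

lemma mG_eq (R : ℝ) (ηX ηX1 ηY ηY1 aX aY : ℝ → ℝ) :
    mG (p := p) (n := n) R ηX ηX1 ηY ηY1 aX aY =
      (volume.restrict (Bx R)).withDensity (Wt ηX ηX1 ηY ηY1 aX aY) := by
  unfold mG mu
  congr 1
  funext x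
  rw [W_eq]

/-- **the form needed in the glue** -/
theorem h1_lint {h X R E : ℝ} {ηX ηX1 ηY ηY1 aX aY : ℝ → ℝ} (h1 : Measurable ηX)
    (h2 : Measurable ηX1) (h3 : Measurable ηY) (h4 : Measurable ηY1) (h5 : Measurable aX)
    (h6 : Measurable aY) (hP : Prof δ K c) (g cc : Fin (gN h X) → ℝ)
    (hfin : IsFiniteMeasure (mG (p := p) (n := n) R ηX ηX1 ηY ηY1 aX aY))
    (key : ENNReal.ofReal ((mG (p := p) (n := n) R ηX ηX1 ηY ηY1 aX aY).real univ * Real.exp E) ≤
      ∫⁻ y, ENNReal.ofReal (Real.exp (∑ i, grid (chi c h) (-(h * gM h X)) h g (y.1 i) -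
      ∑ j, grid (chi c h) (-(h * gM h X)) h g (y.2 j))) ∂(mG (p := p) (n := n) R ηX ηX1 ηY ηY1 aX aY)) :
    (∫⁻ x in Bx R, Wt (p := p) (n := n) ηX ηX1 ηY ηY1 aX aY x) *
      ENNReal.ofReal (Real.exp (E - ∑ i, g i * cc i)) ≤
    ∫⁻ x in Bx R, Wt (p := p) (n := n) ηX ηX1 ηY ηY1 aX aY x *
      ENNReal.ofReal (Real.exp (∑ i, g i * Fi c h X cc i x)) := by
  have hW := Wt_meas (p := p) (n := n) h1 h2 h3 h4 h5 h6
  have hG : Measurable fun y : Cfg p n => ∑ i, grid (chi c h) (-(h * gM h X)) h g (y.1 i) -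
      ∑ j, grid (chi c h) (-(h * gM h X)) h g (y.2 j) := by
    have c0 : Measurable (grid (chi c h) (-(h * gM h X)) h g) := by
      have := (chi_cont hP h).measurable
      unfold grid
      exact Finset.measurable_sum _ fun j _ => by fun_prop
    have h2 : ∀ a : Fin p, Measurable fun x : Cfg p n => x.1 a := fun a => by fun_prop
    have h3 : ∀ a : Fin n, Measurable fun x : Cfg p n => x.2 a := fun a => by fun_prop
    exact (Finset.measurable_sum _ fun a _ => c0.comp (h2 a)).sub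
      (Finset.measurable_sum _ fun a _ => c0.comp (h3 a))
  have e1 : ENNReal.ofReal ((mG (p := p) (n := n) R ηX ηX1 ηY ηY1 aX aY).real univ * Real.exp E) =
      (∫⁻ x in Bx R, Wt (p := p) (n := n) ηX ηX1 ηY ηY1 aX aY x) * ENNReal.ofReal (Real.exp E) := by
    rw [ENNReal.ofReal_mul measureReal_nonneg]
    congr 1
    unfold Measure.real
    rw [ENNReal.ofReal_toReal (measure_ne_top _ _), mG_eq, withDensity_apply _ MeasurableSet.univ,
      Measure.restrict_univ]
  have e2 : ∫⁻ x in Bx R, Wt (p := p) (n := n) ηX ηX1 ηY ηY1 aX aY x *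
      ENNReal.ofReal (Real.exp (∑ i, g i * Fi c h X cc i x)) =
      (∫⁻ y, ENNReal.ofReal (Real.exp (∑ i, grid (chi c h) (-(h * gM h X)) h g (y.1 i) -
      ∑ j, grid (chi c h) (-(h * gM h X)) h g (y.2 j))) ∂(mG (p := p) (n := n) R ηX ηX1 ηY ηY1 aX aY)) *
      ENNReal.ofReal (Real.exp (-∑ i, g i * cc i)) := by
    rw [mG_eq, lintegral_withDensity_eq_lintegral_mul _ hW (by fun_prop), ← lintegral_mul_const]
    · refine lintegral_congr fun x => ?_
      simp only [Pi.mul_apply]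
      rw [mul_assoc, ← ENNReal.ofReal_mul (Real.exp_pos _).le, ← Real.exp_add, sum_Fi]
      congr 3
    · exact hW.mul (by fun_prop)
  rw [e2]
  rw [e1] at key
  have e3 : ENNReal.ofReal (Real.exp (E - ∑ i, g i * cc i)) =
      ENNReal.ofReal (Real.exp E) * ENNReal.ofReal (Real.exp (-∑ i, g i * cc i)) := by
    rw [← ENNReal.ofReal_mul (Real.exp_pos _).le, ← Real.exp_add, sub_eq_add_neg]
  rw [e3, ← mul_assoc]
  exact mul_le_mul_left key _

end

end NUS4
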