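import Pool.Agent.NUS4.H1f
import Pool.Agent.NUS4.FDb
import Pool.Agent.NUDi.Num
import Pool.Agent.NUR2.Inst

/-!
# (H1) with the field data inserted: curves, analytic potentials, rigidity in; moments out
-/

set_option autoImplicit false

open MeasureTheory Set Filter Topology

namespace NUS4

open NUE NUOC NUDp NUKer NUR2 NUTr
open scoped ENNReal

noncomputable section

variable {δ K : ℝ} {c : ℝ → ℝ}

lemma FD.mono {h R R1 a s l1 l2 : ℝ} {ηX ηX1 ηY ηY1 aX aY EX EY : ℝ → ℝ} {N : ℕ} {x : Fin N → ℝ}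
    (H : FD c h R R1 a s l1 ηX ηX1 ηY ηY1 aX aY EX EY x) (hl : l1 ≤ l2) :
    FD c h R R1 a s l2 ηX ηX1 ηY ηY1 aX aY EX EY x := ⟨ob_mono H.oX hl, ob_mono H.oY hl⟩

/-- the numbers of the field data -/
lemma fd_num (k : ℕ) {κ e h η C cs : ℝ} (hκ : 0 < κ) (he : 0 < e) (he1 : e ≤ 1 / 4) (hh : 0 < h)
    (hη : 0 < η) (hC : 1 ≤ C) (hcs : 0 < cs) : ∃ m0 : ℕ, 1 ≤ m0 ∧ ∀ m : ℕ, m0 ≤ m →
    ∀ (R s ε M A Ar : ℝ), (m : ℝ) / 2 ≤ s → s ≤ 2 * m → Real.log m ≤ R → R ≤ Real.log m ^ k → 0 ≤ ε →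
    ε ≤ (m : ℝ) ^ (-κ) → 0 ≤ M → M ≤ Real.log m ^ k → 0 ≤ A → A ≤ Real.log m ^ k → 0 ≤ Ar →
    Ar ≤ Real.log m ^ k →
    0 ≤ R1f e m ∧ ∃ l1 : ℝ, 0 ≤ l1 ∧ l1 ≤ (m : ℝ) ^ (-(min κ e / 2)) ∧
    ∀ x : Fin (gN h (Xf e m)) → ℝ, ∑ i, x i ^ 2 ≤ (2 * ((gN h (Xf e m) : ℕ) : ℝ) + 4) / η →
    sz s (R1f e m) x ≤ cs ∧ C * R ^ 7 * (ε + sz s (R1f e m) x) ≤ 1 ∧
    C * (R ^ 8 * (M * (ε + sz s (R1f e m) x)) +
      R ^ 3 * ((A + s * Real.exp (-2 * R) + Ar) * sz s (R1f e m) x)) ≤ l1 := by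
  obtain ⟨CA, hCA, HA⟩ := sum_abs_le hh hη
  obtain ⟨Cz, hCz, HZ⟩ := sz_le (e := e) (by linarith)
  obtain ⟨κ', hκ'⟩ : ∃ κ', κ' = min κ e := ⟨_, rfl⟩
  have hκ0 : 0 < κ' := by rw [hκ']; exact lt_min hκ he
  obtain ⟨B, hB⟩ : ∃ B, B = C + CA + Cz * CA + 1 := ⟨_, rfl⟩
  have hB1 : 1 ≤ B := by rw [hB]; nlinarith
  obtain ⟨m1, hm1⟩ := log_pow_small (15 * (k + 1)) (half_pos hκ0) (10 * B ^ 15 * (1 + 1 / cs))
  obtain ⟨m2, hm2⟩ := (Real.tendsto_log_atTop.comp tendsto_natCast_atTop_atTop).eventually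
    (eventually_ge_atTop (16 / (3 * e) + 1)) |>.exists_forall_of_atTop
  refine ⟨max 1 (max m1 m2), le_max_left _ _, ?_⟩
  intro m hm R s ε M A Ar hs hs2 hRl hR hε0 hε hM0 hM hA0 hA hAr0 hAr
  have hmm1 := hm1 m (le_trans (le_trans (le_max_left _ _) (le_max_right _ _)) hm)
  have hmm2 := hm2 m (le_trans (le_trans (le_max_right _ _) (le_max_right _ _)) hm)
  have hm0 : 1 ≤ m := le_trans (le_max_left _ _) hm
  have hmr : (1:ℝ) ≤ m := by exact_mod_cast hm0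
  have hmp : (0:ℝ) < m := by linarith
  simp only [Function.comp] at hmm2
  have hsR : s * Real.exp (-2 * R) ≤ 2 := by
    have h1 : Real.exp (-2 * R) ≤ ((m : ℝ))⁻¹ := by
      have h0 : ((m : ℝ))⁻¹ = Real.exp (-Real.log m) := by rw [Real.exp_neg, Real.exp_log hmp]
      rw [h0]
      refine Real.exp_le_exp.2 ?_
      have := Real.log_nonneg hmr
      linarith
    calc s * Real.exp (-2 * R) ≤ 2 * m * ((m : ℝ))⁻¹ := by gcongr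
      _ = 2 := by field_simp
  obtain ⟨L, hL⟩ : ∃ L, L = Real.log m := ⟨_, rfl⟩
  rw [← hL] at hmm1 hmm2 hRl hR hM hA hAr
  have hLe : 16 / (3 * e) ≤ L := by linarith
  have hLe' : 2 ≤ e * (3 / 8 * L) := by
    rw [div_le_iff₀ (by positivity)] at hLe
    linarith
  have hL1 : 1 ≤ L := by
    have : 0 ≤ 16 / (3 * e) := by positivity
    linarith
  have hX : Xf e m = (1 - 2 * e) * (3 / 8 * L) := by rw [hL]; rfl
  have hR1 : R1f e m = (1 - e) * (3 / 8 * L) - 1 := by rw [hL]; rfl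
  have hX0 : 0 ≤ Xf e m := by rw [hX]; exact mul_nonneg (by linarith) (by positivity)
  have hXL : Xf e m ≤ L := by rw [hX]; nlinarith
  have hR10 : 0 ≤ R1f e m := by rw [hR1]; nlinarith
  obtain ⟨v, hv⟩ : ∃ v, v = (m : ℝ) ^ (-κ') := ⟨_, rfl⟩
  obtain ⟨w, hw⟩ : ∃ w, w = (m : ℝ) ^ (-(κ' / 2)) := ⟨_, rfl⟩
  have hv0 : 0 < v := by rw [hv]; exact Real.rpow_pos_of_pos hmp _
  have hw0 : 0 < w := by rw [hw]; exact Real.rpow_pos_of_pos hmp _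
  have hvw : v = w * w := by
    rw [hv, hw, ← Real.rpow_add hmp]
    congr 1
    ring
  have hw1 : w ≤ 1 := by
    rw [hw]
    exact Real.rpow_le_one_of_one_le_of_nonpos hmr (by linarith)
  have hvκ : (m : ℝ) ^ (-κ) ≤ v := by
    rw [hv]
    exact Real.rpow_le_rpow_of_exponent_le hmr (by rw [hκ']; linarith [min_le_left κ e])
  have hve : (m : ℝ) ^ (-e) ≤ v := by
    rw [hv]
    exact Real.rpow_le_rpow_of_exponent_le hmr (by rw [hκ']; linarith [min_le_right κ e])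
  rw [← hκ', ← hw]
  rw [← hw] at hmm1
  obtain ⟨Q, hQ⟩ : ∃ Q, Q = B * L ^ (k + 1) := ⟨_, rfl⟩
  have hLk : 1 ≤ L ^ k := one_le_pow₀ hL1
  have hLk1 : 1 ≤ L ^ (k + 1) := one_le_pow₀ hL1
  have hLkk : L ^ k ≤ L ^ (k + 1) := pow_le_pow_right₀ hL1 (by omega)
  have hLL : L ≤ L ^ (k + 1) := by
    calc L = L ^ 1 := (pow_one L).symm
      _ ≤ _ := pow_le_pow_right₀ hL1 (by omega)
  have hQ1 : 1 ≤ Q := by rw [hQ]; exact one_le_mul_of_one_le_of_one_le hB1 hLk1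
  have hQ0 : 0 ≤ Q := by linarith
  have hBQ : B ≤ Q := by rw [hQ]; nlinarith
  have hCQ : C ≤ Q := by
    refine le_trans ?_ hBQ
    rw [hB]
    nlinarith
  have hLQ : L ^ k ≤ Q := by rw [hQ]; nlinarith
  have hQ15 : 10 * Q ^ 15 * w * (1 + 1 / cs) ≤ 1 := by
    refine le_trans (le_of_eq ?_) hmm1
    rw [hQ, mul_pow, ← pow_mul]
    ring
  have hQp : 0 ≤ 10 * Q ^ 15 * w := by positivity
  have hcs' : 0 < 1 / cs := by positivity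
  have hQle : 10 * Q ^ 15 * w ≤ 1 := by nlinarith
  have hQcs : 10 * Q ^ 15 * w ≤ cs := by
    have h1 : 10 * Q ^ 15 * w * (1 / cs) ≤ 1 := by nlinarith
    rw [mul_one_div, div_le_one hcs] at h1
    exact h1
  have hp : ∀ i j : ℕ, i ≤ j → Q ^ i ≤ Q ^ j := fun i j hij => pow_le_pow_right₀ hQ1 hij
  have hR0 : 0 ≤ R := by linarith
  have hRQ : R ≤ Q := hR.trans hLQ
  have hMQ : M ≤ Q := hM.trans hLQ
  have hAQ : A ≤ Q := hA.trans hLQ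
  have hArQ : Ar ≤ Q := hAr.trans hLQ
  refine ⟨hR10, w, hw0.le, le_refl _, fun x hx => ?_⟩
  have hSA := HA (Xf e m) L hX0 hXL hL1 x hx
  obtain ⟨SA, hAd⟩ : ∃ SA, SA = ∑ i, |x i| := ⟨_, rfl⟩
  rw [← hAd] at hSA
  have hSA0 : 0 ≤ SA := by rw [hAd]; exact Finset.sum_nonneg fun i _ => abs_nonneg _
  have hz := HZ m hm0 s SA hs hSA0
  obtain ⟨z, hzd⟩ : ∃ z, z = sz s (R1f e m) x := ⟨_, rfl⟩
  have hzA : z = SA / (s * NUMF.P (R1f e m + 1)) := by rw [hzd, hAd]; rfl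
  have hs0 : 0 < s := by linarith
  have hz0 : 0 ≤ z := by
    rw [hzA]
    have := NUMF.P_pos (R1f e m + 1)
    positivity
  rw [← hzA] at hz
  have hzQ : z ≤ Q * v := by
    refine hz.trans ?_
    have h1 : Cz * CA ≤ B := by rw [hB]; nlinarith
    calc Cz * SA * (m : ℝ) ^ (-e) ≤ Cz * (CA * L) * v := by gcongr
      _ = Cz * CA * L * v := by ring
      _ ≤ B * L ^ (k + 1) * v := by gcongr
      _ = Q * v := by rw [hQ]
  have hεQ : ε ≤ Q * v := by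
    refine hε.trans (hvκ.trans ?_)
    nlinarith
  rw [← hzd]
  have hQv0 : 0 ≤ Q * v := by positivity
  have a1 : C * R ^ 7 * (ε + z) ≤ Q * Q ^ 7 * (Q * v + Q * v) := by gcongr
  have a2 : Q * Q ^ 7 * (Q * v + Q * v) ≤ 10 * Q ^ 15 * w := by
    have e1 : Q * Q ^ 7 * (Q * v + Q * v) = 2 * Q ^ 9 * v := by ring
    have h1 := hp 9 15 (by norm_num)
    have h2 : v ≤ w := by rw [hvw]; nlinarith
    rw [e1]
    calc 2 * Q ^ 9 * v ≤ 10 * Q ^ 15 * w := by gcongr; norm_num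
      _ = _ := rfl
  refine ⟨?_, (a1.trans a2).trans hQle, ?_⟩
  · refine le_trans ?_ hQcs
    refine hzQ.trans ?_
    have h1 : Q ≤ Q ^ 15 := by
      calc Q = Q ^ 1 := (pow_one Q).symm
        _ ≤ _ := hp 1 15 (by norm_num)
    have h2 : v ≤ w := by rw [hvw]; nlinarith
    calc Q * v ≤ Q ^ 15 * w := by gcongr
      _ ≤ _ := by
        have : 0 ≤ Q ^ 15 * w := by positivity
        linarith
  · have h2 : A + s * Real.exp (-2 * R) + Ar ≤ 4 * Q := by linarith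
    have h3 : 0 ≤ A + s * Real.exp (-2 * R) + Ar := by positivity
    have a3 : C * (R ^ 8 * (M * (ε + z)) + R ^ 3 * ((A + s * Real.exp (-2 * R) + Ar) * z)) ≤
        Q * (Q ^ 8 * (Q * (Q * v + Q * v)) + Q ^ 3 * (4 * Q * (Q * v))) := by gcongr
    refine a3.trans ?_
    have e2 : Q * (Q ^ 8 * (Q * (Q * v + Q * v)) + Q ^ 3 * (4 * Q * (Q * v))) =
        (2 * Q ^ 11 + 4 * Q ^ 6) * v := by ring
    rw [e2, hvw]
    have h4 := hp 11 15 (by norm_num)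
    have h5 := hp 6 15 (by norm_num)
    have h6 : (2 * Q ^ 11 + 4 * Q ^ 6) * w ≤ 1 := by
      refine le_trans ?_ hQle
      calc (2 * Q ^ 11 + 4 * Q ^ 6) * w ≤ (2 * Q ^ 15 + 4 * Q ^ 15) * w := by gcongr
        _ ≤ 10 * Q ^ 15 * w := by
          have : 0 ≤ Q ^ 15 * w := by positivity
          linarith
    calc (2 * Q ^ 11 + 4 * Q ^ 6) * (w * w) = (2 * Q ^ 11 + 4 * Q ^ 6) * w * w := by ring
      _ ≤ 1 * w := mul_le_mul_of_nonneg_right h6 hw0.le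
      _ = w := one_mul w

/-- **(H1), full form**: admissible curves, analytic potentials in the bulk, rigidity of the window
measure; the lower bound of the exponential moments of the field. -/
theorem h1_full (hP : Prof δ K c) {h : ℝ} (hh : 0 < h) (hK : K * h < Real.pi) (k : ℕ) {κ e η w : ℝ}
    (hκ : 0 < κ) (he : 0 < e) (he1 : e ≤ 1 / 4) (hη : 0 < η) (hw : 0 < w) (hw1 : w ≤ 1 / 10) :
    ∃ (m0 : ℕ) (e' : ℝ), 1 ≤ m0 ∧ 0 ≤ e' ∧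
    ∀ m : ℕ, m0 ≤ m → ∀ {p n : ℕ} (R s ε M b A Ar S : ℝ) (eX eY ηX ηX1 ηY ηY1 ErX ErY aX aY : ℝ → ℝ)
    (FX FY : ℂ → ℂ),
    (m : ℝ) / 2 ≤ s → s ≤ 2 * m → Real.log m ≤ R → R ≤ Real.log m ^ k → R1f e m + 1 ≤ b → b + 3 ≤ R →
    NUAct.Cur s ε M b eX ηX → NUAct.Cur s ε M b eY ηY → (∀ t, HasDerivAt ηX (ηX1 t) t) →
    (∀ t, HasDerivAt ηY (ηY1 t) t) → ε ≤ (m : ℝ) ^ (-κ) → M ≤ Real.log m ^ k → 0 ≤ A →
    A ≤ Real.log m ^ k → Ar ≤ Real.log m ^ k →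
    (∀ z : ℂ, |z.re| ≤ b + 2 → |z.im| < w → DifferentiableAt ℂ FX z ∧ ‖FX z‖ ≤ A) →
    (∀ z : ℂ, |z.re| ≤ b + 2 → |z.im| < w → DifferentiableAt ℂ FY z ∧ ‖FY z‖ ≤ A) →
    NUR2.Ext 4 b Ar ErX → NUR2.Ext 4 b Ar ErY → (∀ x, 0 ≤ aX x) → (∀ x, 0 ≤ aY x) →
    Measurable aX → Measurable aY →
    (∀ x, |x| ≤ b → aX x = Real.exp (s * (NUAct.vc (NUAct.zt (iD ηX) x)).re +
      (FX (NUAct.zt (iD ηX) x)).re + ErX x)) →
    (∀ x, |x| ≤ b → aY x = Real.exp (s * (NUAct.vc (NUAct.zt (iD ηY) x)).re +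
      (FY (NUAct.zt (iD ηY) x)).re + ErY x)) → 0 ≤ S → S ≤ Real.log m ^ k →
    IsFiniteMeasure (mG (p := p) (n := n) R ηX ηX1 ηY ηY1 aX aY) →
    NUDi.RigB (mG (p := p) (n := n) R ηX ηX1 ηY ηY1 aX aY) R (fun t => s * NUMF.P t) S →
    ∀ cc : Fin (gN h (Xf e m)) → ℝ, ∃ l : (Fin (gN h (Xf e m)) → ℝ) → ℝ, (∀ g, l (-g) = - l g) ∧
    ∀ g : Fin (gN h (Xf e m)) → ℝ, ∑ i, g i ^ 2 ≤ (2 * ((gN h (Xf e m) : ℕ) : ℝ) + 4) / η →
      (∫⁻ x in Bx R, Wt (p := p) (n := n) ηX ηX1 ηY ηY1 aX aY x) * ENNReal.ofReal (Real.exp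
        ((∑ i, ∑ j, g i * toep (fun θ => rs c (θ / h)) (gN h (Xf e m)) i j * g j) / 2 + l g - e')) ≤
      ∫⁻ x in Bx R, Wt (p := p) (n := n) ηX ηX1 ηY ηY1 aX aY x *
        ENNReal.ofReal (Real.exp (∑ i, g i * Fi c h (Xf e m) cc i x)) := by
  obtain ⟨C, cs, hC, hcs, H⟩ := exists_FD hP h hw hw1
  obtain ⟨m1, hm1, HN⟩ := fd_num k (κ := κ) (e := e) (h := h) (η := η) hκ he he1 hh hη hC hcs
  have hκ1 : 0 < min κ e / 2 := half_pos (lt_min hκ he)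
  obtain ⟨m2, e', hm2, he', HF⟩ := h1_final hP hh hK k hκ1 he he1 hη
  refine ⟨max m1 m2, e', hm1.trans (le_max_left _ _), he', ?_⟩
  intro m hm p n R s ε M b A Ar S eX eY ηX ηX1 ηY ηY1 ErX ErY aX aY FX FY hs hs2 hRl hR hb hbR cX cY
    dX dY hε hM hA0 hA hAr hFX hFY hEX hEY aX0 aY0 aXm aYm haX haY hS0 hS hfin hrig
  have hmm : 1 ≤ m := hm1.trans ((le_max_left _ _).trans hm)
  have hmr : (1:ℝ) ≤ m := by exact_mod_cast hmm
  have hs0 : 0 < s := by linarith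
  have hL0 := Real.log_nonneg hmr
  obtain ⟨r1, l1, hl0, hl, HX⟩ := HN m ((le_max_left _ _).trans hm) R s ε M A Ar hs hs2 hRl hR cX.ε0 hε
    (cX.M0 hs0.le) hM hA0 hA hEX.nonneg hAr
  obtain ⟨EX, EY, HE⟩ := H R (R1f e m) r1 hb hbR hs0 cX cY dX dY hA0 hFX hFY hEX hEY aX0 aY0 aXm aYm
    haX haY
  have hεκ : ε ≤ (m : ℝ) ^ (-(min κ e / 2)) := by
    refine hε.trans (Real.rpow_le_rpow_of_exponent_le hmr ?_)
    have := min_le_left κ e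
    linarith
  refine HF m ((le_max_right _ _).trans hm) R s ε l1 S ηX ηX1 ηY ηY1 aX aY EX EY hs (by linarith) hR
    cX.O4 cY.O4 dX dY hεκ hl0 hl hS0 hS aXm aYm (fun x hx => ?_) hfin (rig_of_rigB hrig)
  obtain ⟨h1, h2, h3⟩ := HX x hx
  exact (HE _ x h1 h2).mono h3

end

end NUS4
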