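import Pool.Agent.NUS4.SharpD
import Pool.Agent.NUH0.CrNum
import Pool.Agent.NUH0.KerN

/-!
# The sharp bound with the numbers: window `2 (log m)²`

`sharpN`: for a gas in the field of at most `log m` objects, with `T0 ≤ (3/2) (log m)²`: the total weight
is at most `C' p! n! exp (MFs + En + (7/3 + ε') T0 + C N0 + x win) (1 + shF) m ^ (- 1/2 + ε + e)`.
-/

set_option autoImplicit false

open MeasureTheory Set Filter Topology

namespace NUS4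

open NUE NUOC NUDp NUKer NUR2 NUTr NUDi NUH0 NUDispW NUEnW NUMFC
open scoped ENNReal

noncomputable section

/-- admissible currents are curves -/
lemma crv_of_cur {s ε M b : ℝ} {e η η1 : ℝ → ℝ} (h : NUAct.Cur s ε M b e η)
    (h1 : ∀ t, HasDerivAt η (η1 t) t) : NU42.Crv ε b η η1 := by
  obtain ⟨a0, u, a1, a2⟩ := h.O4
  obtain rfl : u = η1 := funext fun t => (a1 t).unique (h1 t)
  refine ⟨h1, a2.cont, a0, fun t => a2.le t, fun t ht => ?_⟩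
  have h2 := h.oc.le t
  rw [h.supp t ht] at h2
  unfold iD at h2
  rw [norm_mul, Complex.norm_I, mul_one, Complex.norm_real] at h2
  exact norm_le_zero_iff.1 h2

/-- the inputs of the sharp bound -/
structure SIn (X : NUH0.Dat) (p n m : ℕ) (k κ e w T0 b Mμ : ℝ) (kk : ℕ) {r : ℕ} (h : Fin r → ℝ)
    (ηX ηX1 ηY ηY1 aX aY cf : ℝ → ℝ) : Prop where
  pk : (p : ℝ) ≤ k * m
  nk : (n : ℝ) ≤ k * m
  T1 : 3 / 8 * Real.log m ≤ T0
  T2 : T0 ≤ 3 / 2 * Real.log m ^ 2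
  bL : b ≤ Real.log m
  geo : ∃ Cκ, Geo X Cκ
  fld : Fld X p n
  reg : ∃ δ, RegT X T0 δ
  crv : Crv X ηX ηX1 ηY ηY1
  μm : ∀ a, AEStronglyMeasurable (X.μ a)
  μb : ∀ a t, |X.μ a t| ≤ Mμ * bmaj Finset.univ h (5 / 2) t
  win : win Finset.univ h ≤ Real.log m ^ 2
  gd : GD m kk κ e w X.s (2 * Real.log m ^ 2) b ηX ηX1 ηY ηY1 (fun t => aX t * cf t)
    (fun t => aY t * cf t)

/-- **the sharp bound with the numbers** -/
theorem sharpN {ε ε' : ℝ} (hε : 0 < ε) (hε1 : ε ≤ 1) (hε' : 0 < ε') (hε'1 : ε' ≤ 1 / 100) {k : ℝ}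
    (hk : 2 ≤ k) : ∃ C : ℝ, 0 ≤ C ∧ ∀ (kk : ℕ) {κ e w Mμ x : ℝ}, 0 < κ → 0 < e → e ≤ 1 / 4 → 0 < w →
    w ≤ 1 / 10 → 0 ≤ Mμ → 0 < x →
    ∃ (C' : ℝ) (m0 : ℕ), 1 ≤ C' ∧ 3 ≤ m0 ∧ ∀ m : ℕ, m0 ≤ m →
    ∀ {X : NUH0.Dat} {p n r : ℕ} {T0 b D q N0 e1 : ℝ} {h : Fin r → ℝ}
      {ηX ηX1 ηY ηY1 aX aY cf B : ℝ → ℝ},
    SIn X p n m k κ e w T0 b Mμ kk h ηX ηX1 ηY ηY1 aX aY cf → Shl X aX aY cf B D q →
    7 / 3 + 2 * ε' + 1 / 10 ≤ q → C * e1 ≤ ε' → (∀ T, T0 ≤ T → NT X T ≤ N0 + e1 * (T - T0)) →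
    ∫⁻ ω, ENNReal.ofReal (W0 X p n aX aY cf ω) ≤ ENNReal.ofReal (C' * ((p.factorial : ℝ) * n.factorial *
      Real.exp (MFs X.s p n + X.En + (7 / 3 + ε') * T0 + C * N0 + x * win Finset.univ h) *
      (1 + shF D q (7 / 3 + 2 * ε') T0)) * (m : ℝ) ^ (-(1 / 2 : ℝ) + (ε + e))) := by
  obtain ⟨C, N, hC, hN, HD⟩ := sharpD hε hε1 hε' k
  obtain ⟨K, hK, HK⟩ := kern
  refine ⟨C, hC, ?_⟩
  intro kk κ e w Mμ x hκ he he1 hw hw1 hMμ hx
  obtain ⟨A, hA⟩ : ∃ A : ℝ, A = Mμ ^ 2 * Kc (5 / 2) := ⟨_, rfl⟩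
  have hKc : 0 ≤ Kc (5 / 2) := by
    have h1 := Kc_pos (show (0:ℝ) < 5 / 2 by norm_num)
    exact h1.le
  have hA0 : 0 ≤ A := by rw [hA]; positivity
  obtain ⟨C₂, hC₂⟩ : ∃ C₂ : ℝ, C₂ = 2 * (2 + N) * A + k ^ 2 := ⟨_, rfl⟩
  have hC₂0 : 0 ≤ C₂ := by rw [hC₂]; positivity
  obtain ⟨C', m1, hC', hm1, HM⟩ := HD hC₂0 kk hκ he he1 hw hw1
  obtain ⟨m2, hm2, HN⟩ := kern_num (K := K) (k := k) (A := A) (by linarith) hκ hA0 hx
    (N := N) (by linarith)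
  obtain ⟨m3, hm3⟩ := (Real.tendsto_log_atTop.comp tendsto_natCast_atTop_atTop).eventually
    (eventually_ge_atTop (10 : ℝ)) |>.exists_forall_of_atTop
  refine ⟨C' * Real.exp (C + 1), max m1 (max m2 m3),
    one_le_mul_of_one_le_of_one_le hC' (Real.one_le_exp (by linarith)), hm1.trans (le_max_left _ _), ?_⟩
  intro m hm X p n r T0 b D q N0 e1 h ηX ηX1 ηY ηY1 aX aY cf B hI hS hq he1' hNT
  have hL10 := hm3 m (le_trans (le_trans (le_max_right _ _) (le_max_right _ _)) hm)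
  simp only [Function.comp] at hL10
  have hmm1 : m1 ≤ m := le_trans (le_max_left _ _) hm
  have hmm2 : m2 ≤ m := le_trans (le_trans (le_max_left _ _) (le_max_right _ _)) hm
  have hmr : (1:ℝ) ≤ m := by exact_mod_cast (by omega : 1 ≤ m)
  have hmp : (0:ℝ) < m := by linarith
  obtain ⟨L, hL⟩ : ∃ L, L = Real.log m := ⟨_, rfl⟩
  have hT2 := hI.T2
  have hbL := hI.bL
  have hwin := hI.win
  rw [← hL] at hL10 hT2 hbL hwin
  have hT1 := hI.T1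
  have hT0p : 0 < T0 := by
    rw [← hL] at hT1
    linarith
  obtain ⟨Rw, hRw⟩ : ∃ Rw, Rw = 2 * L ^ 2 := ⟨_, rfl⟩
  have hLL : L ≤ L ^ 2 := by nlinarith
  have hL2 : 1 ≤ L ^ 2 := by nlinarith
  have hRwT : T0 + L ^ 2 / 2 ≤ Rw := by rw [hRw]; linarith
  have hRw0 : 0 ≤ Rw := by rw [hRw]; positivity
  obtain ⟨lam, hlam⟩ : ∃ lam, lam = (m : ℝ) ^ (-κ) := ⟨_, rfl⟩
  have hlam0 : 0 < lam := by rw [hlam]; exact Real.rpow_pos_of_pos hmp _
  obtain ⟨n1, n2, n3, n4⟩ := HN m hmm2 (R1 := Rw) (b := b) (by rw [← hL, hRw]; nlinarith)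
    (by rw [hRw, hL]) hRw0
  rw [← hlam] at n1 n2 n3 n4
  have hRN : 1 ≤ Rw + N := by linarith
  have hRN7 : 1 ≤ (Rw + N) ^ 7 := one_le_pow₀ hRN
  obtain ⟨c1, hc1⟩ : ∃ c1, c1 = 4 * K * (Rw + N) ^ 7 * lam := ⟨_, rfl⟩
  have hc10 : 0 < c1 := by rw [hc1]; positivity
  rw [← hc1] at n2 n3
  -- the curves
  have hG := hI.gd
  obtain ⟨εX, MX, eX, cX, cX1, -⟩ := hG.cX
  obtain ⟨εY, MY, eY, cY, cY1, -⟩ := hG.cY
  rw [← hlam] at cX1 cY1
  have cX' := cur_mono cX cX1 le_rfl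
  have cY' := cur_mono cY cY1 le_rfl
  obtain ⟨η, hη⟩ : ∃ η : Bool → ℝ → ℝ, η = fun a => cond a ηX ηY := ⟨_, rfl⟩
  obtain ⟨η1, hη1⟩ : ∃ η1 : Bool → ℝ → ℝ, η1 = fun a => cond a ηX1 ηY1 := ⟨_, rfl⟩
  have hD : ∀ a, X.D a = iD (η a) := by
    intro a
    rw [hη]
    cases a
    · exact hI.crv.dY
    · exact hI.crv.dX
  have hD1 : ∀ a, X.D1 a = iD (η1 a) := by
    intro a
    rw [hη1]
    cases a
    · exact hI.crv.dY1
    · exact hI.crv.dX1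
  have hCr : ∀ a, NU42.Crv lam b (η a) (η1 a) := by
    intro a
    rw [hη, hη1]
    cases a
    · exact crv_of_cur cY' hG.dY
    · exact crv_of_cur cX' hG.dX
  have hDs : ∀ (R : ℝ) a, NUKer.Disp R lam (iD (η a)) (iD (η1 a)) := by
    intro R a
    rw [hη, hη1]
    cases a
    · exact cY'.disp hG.dY R
    · exact cX'.disp hG.dX R
  obtain ⟨k1, k2⟩ := HK hD hD1 hCr
  have hKlam : K * lam ≤ 1 := by
    refine le_trans ?_ n1
    calc K * lam = K * 1 * lam := by ring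
      _ ≤ K * (Rw + N) ^ 7 * lam := by gcongr
  obtain ⟨ε1, hε1d⟩ : ∃ ε1, ε1 = K * lam * Real.exp (-2 * (Rw - b)) := ⟨_, rfl⟩
  have hε10 : 0 ≤ ε1 := by rw [hε1d]; positivity
  have hwin0 := win_nonneg (Finset.univ : Finset (Fin r)) h
  obtain ⟨m2', hm2'⟩ : ∃ m2', m2' = √(2 * (Rw + N) * (Mμ ^ 2 * Kc (5 / 2) * win Finset.univ h)) :=
    ⟨_, rfl⟩
  have hm2sq : m2' ^ 2 = 2 * (Rw + N) * (A * win Finset.univ h) := by
    rw [hm2', Real.sq_sqrt (by positivity), hA]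
  have hs0 : 0 ≤ X.s := by
    have := hG.s1
    linarith
  have hH : Hyp1 X p n k m T0 Rw N ε1 c1 m2' :=
    { m1 := hmr
      pk := hI.pk
      nk := hI.nk
      sk := hG.s2.trans (by gcongr)
      mT := hI.T1
      T0p := hT0p
      T0R := by linarith
      geo := hI.geo
      fld := hI.fld
      reg := hI.reg
      ε0 := hε10
      ker := by
        intro a d t t' htt
        have h1 := k1 hKlam Rw (fun t => if |t| ≤ Rw then 1 else 0) (by rw [hRw]; nlinarith)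
          (fun t ht => if_pos ht) (fun t => by split_ifs <;> norm_num)
          (fun t => by split_ifs <;> norm_num) a d t t'
        have h2 : (if |t| ≤ Rw then (1:ℝ) else 0) * (if |t'| ≤ Rw then (1:ℝ) else 0) = 0 := by
          rcases htt with ht | ht
          · rw [if_neg (not_le.2 ht), zero_mul]
          · rw [if_neg (not_le.2 ht), mul_zero]
        simp only [h2, zero_mul, sub_zero] at h1
        rw [hε1d]
        exact h1
      kc := ⟨K * (Rw + N) ^ 7 * lam, by positivity, by rw [hc1]; linarith,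
        k2 (Rw + N) hRN (hDs _) n1⟩
      c0 := hc10
      cq := n2
      m2 := by
        intro a
        rw [hm2']
        exact m2_le hMμ (by linarith) (hI.μm a) (hI.μb a) }
  have hm26 : m2' ^ 2 + k ^ 2 ≤ C₂ * Real.log m ^ 6 := by
    rw [← hL, hm2sq, hC₂]
    have hL6 : 1 ≤ L ^ 6 := one_le_pow₀ (by linarith)
    have h46 : L ^ 4 ≤ L ^ 6 := pow_le_pow_right₀ (by linarith) (by norm_num)
    have h1 : Rw + N ≤ (2 + N) * L ^ 2 := by rw [hRw]; nlinarith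
    calc 2 * (Rw + N) * (A * win Finset.univ h) + k ^ 2 ≤
        2 * ((2 + N) * L ^ 2) * (A * L ^ 2) + k ^ 2 * 1 := by
          gcongr
          linarith
      _ = 2 * (2 + N) * A * L ^ 4 + k ^ 2 * 1 := by ring
      _ ≤ 2 * (2 + N) * A * L ^ 6 + k ^ 2 * L ^ 6 := by gcongr
      _ = _ := by ring
  obtain ⟨g, hg⟩ : ∃ g, g = 7 / 3 + 2 * ε' := ⟨_, rfl⟩
  have hg0 : 0 ≤ g := by rw [hg]; linarith
  have hgq : g < q := by rw [hg]; linarith
  obtain ⟨E1, hE1⟩ : ∃ E1, E1 = MFs X.s p n + X.En + (7 / 3 + ε') * T0 +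
      (C * (1 + N0) + ε1 / 2 * ((p : ℝ) + n + 2 * X.s) ^ 2) := ⟨_, rfl⟩
  have hp0 : (0:ℝ) ≤ p := Nat.cast_nonneg _
  have hn0 : (0:ℝ) ≤ n := Nat.cast_nonneg _
  have e4 := n4 p n X.s hp0 hn0 hs0 hI.pk hI.nk (hG.s2.trans (by gcongr))
  rw [← hε1d] at e4
  have e3 := n3 (win Finset.univ h) hwin0
  have key := HM m hmm1 hH hS hI.crv (b := b) (by rw [hRw, hL]; exact hG) hm26 hg0 hgq (E1 := E1)
    (fun T hT => by
      have h1 := Ex1_le (X := X) (p := p) (n := n) (ε := ε1) (ε' := ε') hC he1' hT (hNT T hT)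
      rw [hE1, hg]
      exact h1)
    (by
      rw [← hL]
      have h1 : 1 / 10 ≤ q - g := by rw [hg]; linarith
      have h2 : L ^ 2 / 2 ≤ Rw - T0 := by linarith
      have h3 : 1 / 10 * (L ^ 2 / 2) ≤ (q - g) * (Rw - T0) :=
        mul_le_mul h1 h2 (by positivity) (by linarith)
      nlinarith)
  refine key.trans (ENNReal.ofReal_le_ofReal ?_)
  rw [hm2sq, ← hg]
  have hsh := shF_nonneg (T0 := T0) hS.D0 hgq
  have hexp : Real.exp (E1 + 176 * c1 * (Rw + N) * (2 * (Rw + N) * (A * win Finset.univ h))) ≤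
      Real.exp (C + 1) * Real.exp (MFs X.s p n + X.En + (7 / 3 + ε') * T0 + C * N0 +
        x * win Finset.univ h) := by
    rw [← Real.exp_add]
    refine Real.exp_le_exp.2 ?_
    rw [hE1]
    linarith
  have hmq : 0 ≤ (m : ℝ) ^ (-(1 / 2 : ℝ) + (ε + e)) := (Real.rpow_pos_of_pos hmp _).le
  calc C' * ((p.factorial : ℝ) * n.factorial *
        Real.exp (E1 + 176 * c1 * (Rw + N) * (2 * (Rw + N) * (A * win Finset.univ h))) *
        (1 + shF D q g T0)) * (m : ℝ) ^ (-(1 / 2 : ℝ) + (ε + e))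
      ≤ C' * ((p.factorial : ℝ) * n.factorial * (Real.exp (C + 1) *
        Real.exp (MFs X.s p n + X.En + (7 / 3 + ε') * T0 + C * N0 + x * win Finset.univ h)) *
        (1 + shF D q g T0)) * (m : ℝ) ^ (-(1 / 2 : ℝ) + (ε + e)) := by gcongr
    _ = _ := by ring

end

end NUS4
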